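import Pool.Agent.Lib.Pf91712s.Defs
import Pool.Agent.Lib.Pf91712q.Cnt

/-!
PROOF. `cT A m t z T u ≡ ∑_{l < t} T_l * c1 A m (blk m z l) u (mod 2)` (`YT = chiT && fail`,
`chiT` is the parity of the number of the `l < t` with `T_l && chi ...`; exchange the sums over `v` and `l`).
If all `c1` are even (`l < t`), then all `cT` are even: the left side is `2 * 2^t`. Otherwise let
`c1 A m (blk m z l0) u` be odd: flipping the bit `l0` of `T` exchanges even and odd, so exactly half
of the `T` are even: `2 * 2^(t-1) = 2^t`.
-/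

set_option autoImplicit false

namespace Pool.Agent.Lib.Pf91712s

open Pool.Agent.Lib.Pa76659 (Str Lang Prog PO Halts accepts inp)
open Pool.Agent.Lib.Pf91712q (allF blkOK bsl mem_bsl card_bsl natCard_eq split_bsl cnt_blk)

namespace FouAux

/-- a bit as a number modulo two -/
def bz (b : Bool) : ZMod 2 := if b then 1 else 0

theorem bz_and (a b : Bool) : bz (a && b) = bz a * bz b := by
  cases a <;> cases b <;> simp [bz]

theorem bz_not (a : Bool) : bz (!a) = bz a + 1 := by
  cases a
  · simp [bz]
  · show (0 : ZMod 2) = 1 + 1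
    decide

theorem filter_cast (P : ℕ → Bool) : ∀ n : ℕ,
    ((((List.range n).filter P).length : ℕ) : ZMod 2) = ∑ l ∈ Finset.range n, bz (P l)
  | 0 => by simp
  | n + 1 => by
    rw [List.range_succ, List.filter_append, List.length_append, Nat.cast_add, filter_cast P n,
      Finset.sum_range_succ]
    congr 1
    cases h : P n
    · simp [h, bz]
    · simp [h, bz]

theorem xorN_cast (n : ℕ) (P : ℕ → Bool) : bz (xorN n P) = ∑ l ∈ Finset.range n, bz (P l) := by
  rw [← filter_cast]
  unfold xorN bz
  rcases Nat.mod_two_eq_zero_or_one ((List.range n).filter P).length with h | h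
  · have h1 : ((((List.range n).filter P).length : ℕ) : ZMod 2) = 0 :=
      (ZMod.natCast_eq_zero_iff_even).2 (Nat.even_iff.2 h)
    rw [h1, h]
    simp
  · have h1 : ((((List.range n).filter P).length : ℕ) : ZMod 2) = 1 :=
      (ZMod.natCast_eq_one_iff_odd).2 (Nat.odd_iff.2 h)
    rw [h1, h]
    simp

theorem card_cast (s : Finset Str) (P : Str → Bool) :
    (((s.filter (fun v => P v = true)).card : ℕ) : ZMod 2) = ∑ v ∈ s, bz (P v) := by
  unfold bz
  rw [Finset.sum_boole]

theorem cT_cast (A : Str → Str → Bool) (m t : ℕ) (z T u : Str) :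
    ((cT A m t z T u : ℕ) : ZMod 2) =
      ∑ l ∈ Finset.range t, bz (T.getD l false) * ((c1 A m (blk m z l) u : ℕ) : ZMod 2) := by
  unfold cT c1
  rw [card_cast]
  have h1 : ∀ v ∈ bsl m, bz (YT A m t z T u v) =
      ∑ l ∈ Finset.range t, bz (T.getD l false) * bz (chi m (blk m z l) v && !(A u v)) := by
    intro v _
    unfold YT chiT
    rw [bz_and, xorN_cast, Finset.sum_mul]
    refine Finset.sum_congr rfl fun l _ => ?_
    rw [bz_and, bz_and, mul_assoc]
  rw [Finset.sum_congr rfl h1, Finset.sum_comm]
  refine Finset.sum_congr rfl fun l _ => ?_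
  rw [← Finset.mul_sum, card_cast]

/-- flip one bit -/
def fl (l0 : ℕ) (T : Str) : Str := T.set l0 (!(T.getD l0 false))

theorem fl_getD_self {l0 : ℕ} {T : Str} (h : l0 < T.length) :
    (fl l0 T).getD l0 false = !(T.getD l0 false) := by
  unfold fl
  rw [List.getD_eq_getElem _ _ (by rw [List.length_set]; exact h), List.getElem_set_self]

theorem fl_getD_ne {l0 l : ℕ} {T : Str} (h : l ≠ l0) :
    (fl l0 T).getD l false = T.getD l false := by
  unfold fl
  rw [List.getD_eq_getElem?_getD (l := T.set _ _), List.getElem?_set_ne (Ne.symm h),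
    ← List.getD_eq_getElem?_getD]

theorem fl_fl {l0 : ℕ} {T : Str} (h : l0 < T.length) : fl l0 (fl l0 T) = T := by
  have h1 : (fl l0 T).getD l0 false = !(T.getD l0 false) := fl_getD_self h
  unfold fl at h1 ⊢
  rw [h1, List.set_set, Bool.not_not, List.getD_eq_getElem _ _ h, List.set_getElem_self]

end FouAux

open FouAux in
theorem fourier (A : Str → Str → Bool) (m t : ℕ) (z u : Str) :
    2 * ((bsl t).filter (fun T => Even (cT A m t z T u))).card =
      2 ^ t + (if ∀ l < t, Even (c1 A m (blk m z l) u) then 2 ^ t else 0) := by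
  classical
  have hev : ∀ T : Str, Even (cT A m t z T u) ↔
      ∑ l ∈ Finset.range t, bz (T.getD l false) * ((c1 A m (blk m z l) u : ℕ) : ZMod 2) = 0 := by
    intro T
    rw [← cT_cast, ZMod.natCast_eq_zero_iff_even]
  split_ifs with hall
  · have h1 : (bsl t).filter (fun T => Even (cT A m t z T u)) = bsl t := by
      refine Finset.filter_true_of_mem fun T _ => ?_
      rw [hev]
      refine Finset.sum_eq_zero fun l hl => ?_
      rw [(ZMod.natCast_eq_zero_iff_even).2 (hall l (Finset.mem_range.1 hl)), mul_zero]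
    rw [h1, card_bsl]
    ring
  · push Not at hall
    obtain ⟨l0, hl0, hodd⟩ := hall
    have hc : ((c1 A m (blk m z l0) u : ℕ) : ZMod 2) = 1 :=
      (ZMod.natCast_eq_one_iff_odd).2 (Nat.not_even_iff_odd.1 hodd)
    have hfl : ∀ T ∈ bsl t, fl l0 T ∈ bsl t ∧ fl l0 (fl l0 T) = T ∧
        (Even (cT A m t z (fl l0 T) u) ↔ ¬ Even (cT A m t z T u)) := by
      intro T hT
      rw [mem_bsl] at hT
      have hlt : l0 < T.length := by rw [hT]; exact hl0
      refine ⟨?_, fl_fl hlt, ?_⟩
      · rw [mem_bsl]
        unfold fl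
        rw [List.length_set, hT]
      · have hs : ∑ l ∈ Finset.range t, bz ((fl l0 T).getD l false) *
              ((c1 A m (blk m z l) u : ℕ) : ZMod 2) =
            ∑ l ∈ Finset.range t, bz (T.getD l false) *
              ((c1 A m (blk m z l) u : ℕ) : ZMod 2) + 1 := by
          rw [← Finset.add_sum_erase _ _ (Finset.mem_range.2 hl0),
            ← Finset.add_sum_erase (Finset.range t) (fun l => bz (T.getD l false) *
              ((c1 A m (blk m z l) u : ℕ) : ZMod 2)) (Finset.mem_range.2 hl0),
            fl_getD_self hlt, bz_not, hc]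
          have h2 : ∑ l ∈ (Finset.range t).erase l0, bz ((fl l0 T).getD l false) *
              ((c1 A m (blk m z l) u : ℕ) : ZMod 2) =
              ∑ l ∈ (Finset.range t).erase l0, bz (T.getD l false) *
              ((c1 A m (blk m z l) u : ℕ) : ZMod 2) := by
            refine Finset.sum_congr rfl fun l hl => ?_
            rw [fl_getD_ne (Finset.ne_of_mem_erase hl)]
          rw [h2]
          ring
        rw [hev, hev, hs]
        generalize ∑ l ∈ Finset.range t, bz (T.getD l false) *
          ((c1 A m (blk m z l) u : ℕ) : ZMod 2) = y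
        revert y
        decide
    have hbij : ((bsl t).filter (fun T => Even (cT A m t z T u))).card =
        ((bsl t).filter (fun T => ¬ Even (cT A m t z T u))).card := by
      refine Finset.card_nbij' (fl l0) (fl l0) ?_ ?_ ?_ ?_
      · intro T hT
        have hT' := Finset.mem_filter.1 (Finset.mem_coe.1 hT)
        obtain ⟨h1, h2, h3⟩ := hfl T hT'.1
        refine Finset.mem_coe.2 (Finset.mem_filter.2 ⟨h1, ?_⟩)
        intro h4
        exact (h3.1 h4) hT'.2
      · intro T hT
        have hT' := Finset.mem_filter.1 (Finset.mem_coe.1 hT)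
        obtain ⟨h1, h2, h3⟩ := hfl T hT'.1
        exact Finset.mem_coe.2 (Finset.mem_filter.2 ⟨h1, h3.2 hT'.2⟩)
      · intro T hT
        exact (hfl T (Finset.mem_filter.1 (Finset.mem_coe.1 hT)).1).2.1
      · intro T hT
        exact (hfl T (Finset.mem_filter.1 (Finset.mem_coe.1 hT)).1).2.1
    have hsum := Finset.card_filter_add_card_filter_not (s := bsl t)
      (fun T => Even (cT A m t z T u))
    rw [← hbij, card_bsl] at hsum
    rw [add_zero]
    omega

end Pool.Agent.Lib.Pf91712s
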