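import Pool.Agent.Lib.Pf91712s.Core
import Pool.Agent.Lib.Pf91712s.Fou

/-!
PROOF. Let `J = JJ m z`, `t0 = z.length / R m`. From `fourier` for `t ≥ 1`:
`∑_u #{T | even} = 2^(m + t - 1) + 2^(t - 1) NN A m t z` (halve; `bsl m` has `2^m` elements).
`bit_false`: `g = b :: (w ++ r)`, `w ∈ bsl (R m)` with zeros after the first `R m - z.length % R m - 1` bits
(`split_bsl 1`, `split_bsl (R m)`; `CntBAux.cons_count` and `allF_iff` in Pf91712q/Cnt.lean help), and
`core_count` with `t = t0 + 1`: in `ZMod (2^J)` the count is `2^t0 (SB true - SB false)` (the constants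
`2^(m + t - 1)` cancel). `SB b ≤ 2^(R m - 1) 2^m`, `J = t0 + R m + m + 2`, so `|2^t0 (SB true - SB false)| ≤ 2^(J-3) < 2^(J-1)`,
and the digit `J - 1` of a number `n` with `n = a - b` in `ZMod (2^J)`, `a, b < 2^(J-1)`, is `1` iff `a < b`.
`bit_true` (`t0 ≥ 1`): the count is `2^(m + t0 - 1)` (world `b = false`: `allF (drop (m + t0 - 1))`) minus
`2^(m + t0 - 1) + 2^(t0 - 1) NN A m t0 z`, that is `- 2^(t0 - 1) NN`, `NN ≤ 2^m`.
-/

set_option autoImplicit false

namespace Pool.Agent.Lib.Pf91712s

open Pool.Agent.Lib.Pa76659 (Str Lang Prog PO Halts accepts inp)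
open Pool.Agent.Lib.Pf91712q (allF blkOK bsl mem_bsl card_bsl natCard_eq split_bsl cnt_blk)

namespace BitsAux

open Pool.Agent.Lib.Pf91712q (allF_iff)

theorem digit (J n a b : ℕ) (hJ : 1 ≤ J) (ha : a < 2 ^ (J - 1)) (hb : b < 2 ^ (J - 1))
    (h : (n : ZMod (2 ^ J)) = (a : ZMod (2 ^ J)) - (b : ZMod (2 ^ J))) :
    n.testBit (J - 1) = decide (a < b) := by
  have h2 : 2 ^ J = 2 * 2 ^ (J - 1) := by
    rw [← pow_succ']
    congr 1
    omega
  have h3 : ((n + b : ℕ) : ZMod (2 ^ J)) = ((a : ℕ) : ZMod (2 ^ J)) := by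
    rw [Nat.cast_add, h]
    ring
  have h4 : n + b ≡ a [MOD 2 ^ J] := (ZMod.natCast_eq_natCast_iff _ _ _).1 h3
  have h5 : n.testBit (J - 1) = (n % 2 ^ J).testBit (J - 1) := by
    rw [Nat.testBit_mod_two_pow]
    have : J - 1 < J := by omega
    simp [this]
  have hlt : n % 2 ^ J < 2 * 2 ^ (J - 1) := by
    rw [← h2]
    exact Nat.mod_lt _ (by positivity)
  rw [h5, Pool.Agent.Lib.Pf91712q.CntBAux.testBit_top hlt]
  congr 1
  apply propext
  have h6 : n % 2 ^ J + b ≡ a [MOD 2 ^ J] := by
    refine Nat.ModEq.trans ?_ h4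
    exact Nat.ModEq.add_right b (Nat.mod_modEq n (2 ^ J))
  generalize n % 2 ^ J = r at h6 hlt
  rw [h2] at h6
  have hpos : 0 < 2 ^ (J - 1) := by positivity
  generalize 2 ^ (J - 1) = q at *
  by_cases hab : r + b < 2 * q
  · have h7 : r + b = a := by
      have := h6
      unfold Nat.ModEq at this
      rw [Nat.mod_eq_of_lt hab, Nat.mod_eq_of_lt (by omega)] at this
      exact this
    constructor
    · intro h8
      omega
    · intro h8
      omega
  · have h7 : r + b = a + 2 * q := by
      have := h6
      unfold Nat.ModEq at this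
      rw [Nat.mod_eq_sub_mod (by omega), Nat.mod_eq_of_lt (by omega),
        Nat.mod_eq_of_lt (by omega)] at this
      omega
    constructor
    · intro h8
      omega
    · intro h8
      omega

theorem fsum (A : Str → Str → Bool) (m t : ℕ) (z : Str) :
    ∑ u ∈ bsl m, ((bsl (t + 1)).filter (fun T => Even (cT A m (t + 1) z T u))).card =
      2 ^ m * 2 ^ t + 2 ^ t * NN A m (t + 1) z := by
  have h1 : 2 * ∑ u ∈ bsl m, ((bsl (t + 1)).filter (fun T => Even (cT A m (t + 1) z T u))).card =
      2 ^ m * 2 ^ (t + 1) + 2 ^ (t + 1) * NN A m (t + 1) z := by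
    rw [Finset.mul_sum, Finset.sum_congr rfl (fun u _ => fourier A m (t + 1) z u),
      Finset.sum_add_distrib, Finset.sum_const, card_bsl, smul_eq_mul, ← Finset.sum_filter,
      Finset.sum_const, smul_eq_mul, NN, Nat.mul_comm (2 ^ (t + 1))]
  rw [pow_succ] at h1
  have h2 : 2 * (2 ^ m * 2 ^ t + 2 ^ t * NN A m (t + 1) z) =
      2 ^ m * (2 ^ t * 2) + 2 ^ t * 2 * NN A m (t + 1) z := by ring
  omega

theorem NN_le (A : Str → Str → Bool) (m t : ℕ) (z : Str) : NN A m t z ≤ 2 ^ m := by
  unfold NN
  rw [← card_bsl m]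
  exact Finset.card_filter_le _ _

theorem sum_take (e f : ℕ) (F : Str → ℕ) :
    ∑ w ∈ (bsl (e + f)).filter (fun w => allF (w.drop e) = true), F (w.take e) =
      ∑ w ∈ bsl e, F w := by
  refine Finset.sum_bij (fun w _ => w.take e) ?_ ?_ ?_ ?_
  · intro w hw
    have h1 := (Finset.mem_filter.1 hw).1
    rw [mem_bsl] at h1 ⊢
    rw [List.length_take]
    omega
  · intro w hw w' hw' h
    have h1 := Finset.mem_filter.1 hw
    have h2 := Finset.mem_filter.1 hw'
    rw [mem_bsl, allF_iff] at h1 h2
    have h3 : w.drop e = w'.drop e := by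
      rw [h1.2, h2.2, List.length_drop, List.length_drop, h1.1, h2.1]
    rw [← List.take_append_drop e w, ← List.take_append_drop e w', h3]
    congr 1
  · intro w hw
    rw [mem_bsl] at hw
    refine ⟨w ++ List.replicate f false, ?_, ?_⟩
    · rw [Finset.mem_filter, mem_bsl, allF_iff]
      constructor
      · simp [hw]
      · rw [← hw, List.drop_left]
        simp
    · rw [← hw]
      simp
  · intro w _
    rfl

end BitsAux

open BitsAux

theorem bit_false (A : Str → Str → Bool) (m N : ℕ) (z : Str) (hN : N0 m z ≤ N) :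
    (Nat.card {g : Str // g.length = N ∧ Psi A m false z g = true}).testBit (JJ m z - 1) =
      decide (SB A m z true < SB A m z false) := by
  obtain ⟨N', rfl⟩ : ∃ N', N = 1 + (R m + N') := by
    refine ⟨N - (1 + R m), ?_⟩
    unfold N0 at hN
    generalize z.length / R m = q at hN
    omega
  have hN' : m + ((z.length / R m + 1) + (JJ m z * (m + 1) + ((2 * JJ m z - 2) +
      ((JJ m z - 1) * m + JJ m z)))) ≤ N' := by
    unfold N0 at hN
    omega
  have hRpos : 0 < R m := by
    unfold R
    omega
  have hmod : z.length % R m < R m := Nat.mod_lt _ hRpos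
  have hJ : 1 ≤ JJ m z := by
    unfold JJ
    generalize z.length / R m = q
    omega
  set e : ℕ := R m - z.length % R m - 1 with he
  set Q : Bool → Str → Bool := fun b r => allF ((r.take (R m)).drop e) &&
      coreOK A m (JJ m z) (z.length / R m + 1)
        (z ++ b :: (r.take (R m)).take e) (!b) (r.drop (R m)) with hQ
  have hP : ∀ g : Str, Psi A m false z g =
      if g.headD false = true then Q true g.tail else Q false g.tail := by
    intro g
    cases hg : g.headD false
    · simp only [Psi, hg, hQ, ← he]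
      simp
    · simp only [Psi, hg, hQ, ← he]
      simp
  have e1 := Pool.Agent.Lib.Pf91712q.CntBAux.cons_count (R m + N') Q
  simp only [hP]
  rw [e1]
  have hc : ∀ b : Bool, ((Nat.card {r : Str // r.length = R m + N' ∧ Q b r = true} : ℕ) :
      ZMod (2 ^ JJ m z)) = (if (!b) = true then -1 else 1) *
        ((2 ^ e * (2 ^ m * 2 ^ (z.length / R m)) +
          2 ^ (z.length / R m) * SB A m z b : ℕ) : ZMod (2 ^ JJ m z)) := by
    intro b
    rw [natCard_eq, split_bsl]
    have h1 : ∀ v ∈ bsl (R m), ((bsl N').filter (fun s => Q b (v ++ s) = true)).card =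
        if allF (v.drop e) = true then
          Nat.card {r : Str // r.length = N' ∧ coreOK A m (JJ m z) (z.length / R m + 1)
            (z ++ b :: v.take e) (!b) r = true} else 0 := by
      intro v hv
      rw [mem_bsl] at hv
      have h2 : ∀ s : Str, Q b (v ++ s) = (allF (v.drop e) &&
          coreOK A m (JJ m z) (z.length / R m + 1) (z ++ b :: v.take e) (!b) s) := by
        intro s
        simp only [hQ]
        have h3 : (v ++ s).take (R m) = v := by
          rw [← hv, List.take_left]
        have h4 : (v ++ s).drop (R m) = s := by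
          rw [← hv, List.drop_left]
        rw [h3, h4]
      simp only [h2]
      split_ifs with hv2
      · rw [natCard_eq]
        congr 1
        apply Finset.filter_congr
        intro s _
        rw [hv2, Bool.true_and]
      · rw [Finset.card_eq_zero, Finset.filter_eq_empty_iff]
        intro s _
        simp [hv2]
    rw [Finset.sum_congr rfl h1, ← Finset.sum_filter]
    have h5 := sum_take e (z.length % R m + 1)
      (fun w => Nat.card {r : Str // r.length = N' ∧ coreOK A m (JJ m z) (z.length / R m + 1)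
            (z ++ b :: w) (!b) r = true})
    have h6 : e + (z.length % R m + 1) = R m := by omega
    rw [h6] at h5
    rw [h5, Nat.cast_sum]
    have h7 : ∀ w ∈ bsl e, ((Nat.card {r : Str // r.length = N' ∧
        coreOK A m (JJ m z) (z.length / R m + 1) (z ++ b :: w) (!b) r = true} : ℕ) :
          ZMod (2 ^ JJ m z)) = (if (!b) = true then -1 else 1) *
        ((2 ^ m * 2 ^ (z.length / R m) +
          2 ^ (z.length / R m) * NN A m (z.length / R m + 1) (z ++ b :: w) : ℕ) :
            ZMod (2 ^ JJ m z)) := by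
      intro w _
      rw [core_count A m (JJ m z) (z.length / R m + 1) (z ++ b :: w) (!b) N' hJ hN', fsum]
    rw [Finset.sum_congr rfl h7, ← Finset.mul_sum, ← Nat.cast_sum, Finset.sum_add_distrib,
      Finset.sum_const, card_bsl, smul_eq_mul, ← Finset.mul_sum]
    rfl
  have hS : ∀ b : Bool, 2 ^ (z.length / R m) * SB A m z b < 2 ^ (JJ m z - 1) := by
    intro b
    have h1 : SB A m z b ≤ 2 ^ e * 2 ^ m := by
      unfold SB
      rw [← he]
      calc ∑ w ∈ bsl e, NN A m (z.length / R m + 1) (z ++ b :: w)
          ≤ ∑ w ∈ bsl e, 2 ^ m := Finset.sum_le_sum (fun w _ => NN_le A m _ _)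
        _ = 2 ^ e * 2 ^ m := by rw [Finset.sum_const, card_bsl, smul_eq_mul]
    calc 2 ^ (z.length / R m) * SB A m z b ≤ 2 ^ (z.length / R m) * (2 ^ e * 2 ^ m) :=
          Nat.mul_le_mul_left _ h1
      _ = 2 ^ (z.length / R m + (e + m)) := by rw [pow_add, pow_add]
      _ < 2 ^ (JJ m z - 1) := by
          apply Nat.pow_lt_pow_right (by norm_num)
          unfold JJ
          omega
  rw [digit (JJ m z) _ (2 ^ (z.length / R m) * SB A m z true)
    (2 ^ (z.length / R m) * SB A m z false) hJ (hS true) (hS false)]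
  · congr 1
    apply propext
    have hpos : 0 < 2 ^ (z.length / R m) := by positivity
    constructor
    · intro h
      exact lt_of_mul_lt_mul_left h (Nat.zero_le _)
    · intro h
      exact Nat.mul_lt_mul_of_pos_left h hpos
  · rw [Nat.cast_add, hc false, hc true]
    simp only [Bool.not_false, Bool.not_true, if_true, Bool.false_eq_true, if_false]
    push_cast
    ring

theorem bit_true (A : Str → Str → Bool) (m N : ℕ) (z : Str) (hN : N0 m z ≤ N)
    (hz : R m ≤ z.length) :
    (Nat.card {g : Str // g.length = N ∧ Psi A m true z g = true}).testBit (JJ m z - 1) =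
      decide (0 < NN A m (z.length / R m) z) := by
  obtain ⟨N', rfl⟩ : ∃ N', N = 1 + N' := by
    refine ⟨N - 1, ?_⟩
    unfold N0 at hN
    generalize z.length / R m = q at hN
    omega
  have hN' : m + ((z.length / R m) + (JJ m z * (m + 1) + ((2 * JJ m z - 2) +
      ((JJ m z - 1) * m + JJ m z)))) ≤ N' := by
    unfold N0 at hN
    omega
  have hRpos : 0 < R m := by
    unfold R
    omega
  have hJ : 1 ≤ JJ m z := by
    unfold JJ
    generalize z.length / R m = q
    omega
  obtain ⟨t, ht⟩ : ∃ t, z.length / R m = t + 1 := by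
    have := Nat.div_pos hz hRpos
    exact ⟨z.length / R m - 1, by omega⟩
  have hJt : JJ m z = t + 1 + R m + m + 2 := by
    unfold JJ
    rw [ht]
  have e1 := Pool.Agent.Lib.Pf91712q.CntBAux.cons_count N'
    (fun b r => if b then coreOK A m (JJ m z) (z.length / R m) z true r
      else allF (r.drop (m + z.length / R m - 1)))
  simp only [Bool.false_eq_true, if_true, if_false] at e1
  have hP : ∀ g : Str, Psi A m true z g =
      if g.headD false = true then coreOK A m (JJ m z) (z.length / R m) z true g.tail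
        else allF (g.tail.drop (m + z.length / R m - 1)) := by
    intro g
    simp [Psi]
  simp only [hP]
  rw [e1]
  have hmt : m + z.length / R m - 1 = m + t := by omega
  have c1 : Nat.card {r : Str // r.length = N' ∧ allF (r.drop (m + z.length / R m - 1)) = true} =
      2 ^ m * 2 ^ t := by
    obtain ⟨f, rfl⟩ : ∃ f, N' = (m + t) + f := ⟨N' - (m + t), by omega⟩
    rw [natCard_eq, hmt]
    have h5 := sum_take (m + t) f (fun _ => 1)
    rw [Finset.sum_const, Finset.sum_const, card_bsl, smul_eq_mul, smul_eq_mul, Nat.mul_one,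
      Nat.mul_one] at h5
    rw [h5, pow_add]
  have c2 := core_count A m (JJ m z) (z.length / R m) z true N' hJ hN'
  rw [if_pos rfl] at c2
  have hS : 2 ^ t * NN A m (z.length / R m) z < 2 ^ (JJ m z - 1) := by
    calc 2 ^ t * NN A m (z.length / R m) z ≤ 2 ^ t * 2 ^ m :=
          Nat.mul_le_mul_left _ (NN_le A m _ _)
      _ = 2 ^ (t + m) := by rw [pow_add]
      _ < 2 ^ (JJ m z - 1) := by
          apply Nat.pow_lt_pow_right (by norm_num)
          omega
  rw [digit (JJ m z) _ 0 (2 ^ t * NN A m (z.length / R m) z) hJ (by positivity) hS]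
  · congr 1
    apply propext
    have hpos : 0 < 2 ^ t := by positivity
    constructor
    · intro h
      exact Nat.pos_of_mul_pos_left h
    · intro h
      exact Nat.mul_pos hpos h
  · rw [Nat.cast_add, c1, c2, ht, fsum]
    push_cast
    ring

end Pool.Agent.Lib.Pf91712s
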