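import Mathlib

/-!
the modulus amplifying polynomial (Beigel, Tarui). PROOF. If `y` is odd, `1 + y` is
even and `(1 + y)^J = 0` in `ZMod (2^J)`. If `y` is even: `∑_{i < J} (-1)^i C(J + i - 1, i) y^i` is
`(1 + y)^(-J)` modulo `y^J`, and `y^J = 0`. Elementary: let `S_a = ∑_{i < J} (-1)^i C(a + i - 1, i) y^i` in
a commutative ring with `y^J = 0` (`a ≥ 1`; `S_0 = 1`); Pascal `C(a + i, i) = C(a + i - 1, i) + C(a + i - 1, i - 1)`
gives `(1 + y) S_(a+1) = S_a` (the last term has the factor `y^J`), so `(1 + y)^J S_J = S_0 = 1`.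
-/

set_option autoImplicit false

namespace Pool.Agent.Lib.Pf91712s

namespace BtAux

theorem step {R : Type*} [CommRing R] (y : R) (a m : ℕ) :
    (1 + y) * ∑ i ∈ Finset.range (m + 1),
      (-1) ^ i * ((Nat.choose (a + 1 + i) i : ℕ) : R) * y ^ i =
    (∑ i ∈ Finset.range (m + 1), (-1) ^ i * ((Nat.choose (a + i) i : ℕ) : R) * y ^ i) +
      (-1) ^ m * ((Nat.choose (a + 1 + m) m : ℕ) : R) * y ^ (m + 1) := by
  induction m with
  | zero => simp
  | succ m ih =>
    rw [Finset.sum_range_succ, mul_add, ih, Finset.sum_range_succ _ (m + 1)]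
    have hp : Nat.choose (a + 1 + (m + 1)) (m + 1) =
        Nat.choose (a + 1 + m) m + Nat.choose (a + (m + 1)) (m + 1) := by
      have h1 : a + 1 + (m + 1) = (a + 1 + m) + 1 := by ring
      have h2 : a + (m + 1) = a + 1 + m := by ring
      rw [h1, h2, Nat.choose_succ_succ]
    rw [hp]
    push_cast
    ring

theorem base {R : Type*} [CommRing R] (y : R) (J : ℕ) (hy : y ^ J = 0) :
    (1 + y) * ∑ i ∈ Finset.range J, (-1) ^ i * ((Nat.choose (0 + i) i : ℕ) : R) * y ^ i = 1 := by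
  have h : ∀ n : ℕ, (1 + y) * ∑ i ∈ Finset.range n,
      (-1) ^ i * ((Nat.choose (0 + i) i : ℕ) : R) * y ^ i = 1 - (-1) ^ n * y ^ n := by
    intro n
    induction n with
    | zero => simp
    | succ n ih =>
      rw [Finset.sum_range_succ, mul_add, ih]
      simp only [zero_add, Nat.choose_self, Nat.cast_one, mul_one]
      ring
  rw [h J, hy]
  ring

theorem main {R : Type*} [CommRing R] (y : R) (J : ℕ) (hJ : 1 ≤ J) (hy : y ^ J = 0) (a : ℕ) :
    (1 + y) ^ (a + 1) * ∑ i ∈ Finset.range J,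
      (-1) ^ i * ((Nat.choose (a + i) i : ℕ) : R) * y ^ i = 1 := by
  induction a with
  | zero => simpa using base y J hy
  | succ a ih =>
    obtain ⟨m, rfl⟩ : ∃ m, J = m + 1 := ⟨J - 1, by omega⟩
    have h := step y a m
    rw [hy, mul_zero, add_zero] at h
    rw [pow_succ, mul_assoc, h, ih]

end BtAux

theorem bt (J y : ℕ) (hJ : 1 ≤ J) :
    (1 + (y : ZMod (2 ^ J))) ^ J * ∑ i ∈ Finset.range J,
      (-1) ^ i * ((Nat.choose (J + i - 1) i : ℕ) : ZMod (2 ^ J)) * (y : ZMod (2 ^ J)) ^ i =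
      if Even y then 1 else 0 := by
  have h2 : ∀ k : ℕ, (((2 * k : ℕ) : ZMod (2 ^ J))) ^ J = 0 := by
    intro k
    rw [← Nat.cast_pow, mul_pow, Nat.cast_mul]
    rw [ZMod.natCast_self, zero_mul]
  by_cases he : Even y
  · rw [if_pos he]
    obtain ⟨k, hk⟩ := he
    have hy : ((y : ZMod (2 ^ J))) ^ J = 0 := by
      have : y = 2 * k := by omega
      rw [this]
      exact h2 k
    obtain ⟨a, rfl⟩ : ∃ a, J = a + 1 := ⟨J - 1, by omega⟩
    have h := BtAux.main (y : ZMod (2 ^ (a + 1))) (a + 1) hJ hy a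
    have hs : ∀ i : ℕ, a + 1 + i - 1 = a + i := fun i => by omega
    simp only [hs]
    exact h
  · rw [if_neg he]
    have ho : Odd y := Nat.not_even_iff_odd.mp he
    obtain ⟨k, hk⟩ := ho
    have hy : (1 + (y : ZMod (2 ^ J))) ^ J = 0 := by
      have h1 : (1 + (y : ZMod (2 ^ J))) = ((2 * (k + 1) : ℕ) : ZMod (2 ^ J)) := by
        rw [hk]
        push_cast
        ring
      rw [h1]
      exact h2 (k + 1)
    rw [hy, zero_mul]

end Pool.Agent.Lib.Pf91712s
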