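import Pool.Agent.Lib.Pf91712q.Defs

/-!
Level two with `(log n)²` guess bits: definitions.

Seeds of tests are strings of length `R m = 4 m + 3`: a Hankel matrix (bits `0, ..., 2 m - 1`), a shift
(bits `2 m, ..., 3 m`) and a mask (bits `3 m + 1, ..., 4 m + 2`).
-/

set_option autoImplicit false

namespace Pool.Agent.Lib.Pf91712s

open Pool.Agent.Lib.Pa76659 (Str Lang Prog PO Halts accepts inp)
open Pool.Agent.Lib.Pa76659G (pr on1 fst snd)
open Pool.Agent.Lib.Pf91712 (bitsOf)
open Pool.Agent.Lib.Pf91712p (lg)
open Pool.Agent.Lib.Pf91712q (allF blkOK bsl relA)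

/-- The parameterized counting class with `h k * L ⌊log₂ |x|⌋` guess bits relative to the oracle `O`:
the number of the guesses of `h k * L ⌊log₂ |x|⌋` bits which are accepted by a predicate in `P`
relative to `O`, applied to the instance `x`, the advice `π k` and the guess. For `L m = m` this is
`#W[P]` relative to `O`. -/
def SharpC (L : ℕ → ℕ) (O : Lang) : Set (Str → ℕ → ℕ) :=
  {F | ∃ (h : ℕ → ℕ) (π : ℕ → Str) (B : Lang), Computable h ∧ Computable π ∧ B ∈ PO O ∧
    ∀ x k, F x k = Nat.card {z : Str // z.length = h k * L (lg x) ∧ B (pr x (pr (π k) z)) = true}}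

/-- the number of the `i < n` with `P i` is odd -/
def xorN (n : ℕ) (P : ℕ → Bool) : Bool := decide (((List.range n).filter P).length % 2 = 1)

/-- the length of a seed -/
def R (m : ℕ) : ℕ := 4 * m + 3

/-- the `i`-th bit (`i ≤ m`) of the hash value of `v` -/
def hb (m : ℕ) (s v : Str) (i : ℕ) : Bool :=
  xor (xorN m (fun j => s.getD (i + j) false && v.getD j false)) (s.getD (2 * m + i) false)

/-- the test with the seed `s` contains the string `v` -/
def chi (m : ℕ) (s v : Str) : Bool :=
  xorN (m + 2) (fun j => s.getD (3 * m + 1 + j) false && decide (∀ i < j, hb m s v i = false))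

/-- the `l`-th seed in `z` -/
def blk (m : ℕ) (z : Str) (l : ℕ) : Str := (z.drop (l * R m)).take (R m)

/-- the sum modulo two of the tests `l < t` which are selected by `T` -/
def chiT (m t : ℕ) (z T v : Str) : Bool := xorN t (fun l => T.getD l false && chi m (blk m z l) v)

/-- `v` is in the sum of the selected tests, and `u` fails `v` -/
def YT (A : Str → Str → Bool) (m t : ℕ) (z T u v : Str) : Bool := chiT m t z T v && !(A u v)

/-- the number of the `v` in the sum of the selected tests which `u` fails -/
noncomputable def cT (A : Str → Str → Bool) (m t : ℕ) (z T u : Str) : ℕ :=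
  ((bsl m).filter (fun v => YT A m t z T u v = true)).card

/-- the number of the `v` in the test `s` which `u` fails -/
noncomputable def c1 (A : Str → Str → Bool) (m : ℕ) (s u : Str) : ℕ :=
  ((bsl m).filter (fun v => (chi m s v && !(A u v)) = true)).card

/-- the number of the `u` which are not detected by the first `t` tests in `z` -/
noncomputable def NN (A : Str → Str → Bool) (m t : ℕ) (z : Str) : ℕ :=
  ((bsl m).filter (fun u => ∀ l < t, Even (c1 A m (blk m z l) u))).card

/-- the number of the `u` which pass all `v` -/
noncomputable def GG (A : Str → Str → Bool) (m : ℕ) : ℕ :=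
  ((bsl m).filter (fun u => ∀ v ∈ bsl m, A u v = true)).card

/-- the sum of `NN` over the completions of the last seed of `z ++ [b]` -/
noncomputable def SB (A : Str → Str → Bool) (m : ℕ) (z : Str) (b : Bool) : ℕ :=
  ∑ w ∈ bsl (R m - z.length % R m - 1), NN A m (z.length / R m + 1) (z ++ b :: w)

/-- the modulus is `2 ^ JJ` -/
def JJ (m : ℕ) (z : Str) : ℕ := z.length / R m + R m + m + 2

/-- the number of ones -/
def ones (q : Str) : ℕ := ((List.range q.length).filter (fun i => q.getD i false)).length

/-- all bits are `true` -/
def allT (s : Str) : Bool := decide (∀ i < s.length, s.getD i false = true)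

/-- The guesses `u`, `T`, `P1` (`J` blocks which are zero or a `1` and a string in `YT`), `q` (a string
with `i` ones, the last ones at the end of the first `J - 1 + i` bits), `P3` (`i` blocks in `YT`), `sg`
(zeros, or, with negative sign, any string but the ones), `pad` (zeros). -/
def coreP (A : Str → Str → Bool) (m J t : ℕ) (z : Str) (neg : Bool) (u T P1 q P3 sg pad : Str) : Bool :=
  blkOK (fun bv => if bv.headD false then YT A m t z T u bv.tail else allF bv) (m + 1) J P1 &&
  (decide (ones q ≤ J - 1) && (allF (q.drop (J - 1 + ones q)) &&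
  (blkOK (fun v => YT A m t z T u v) m (ones q) P3 &&
  ((if xor neg (decide (ones q % 2 = 1)) then !(allT sg) else allF sg) && allF pad))))

/-- `coreP` for a string -/
def coreOK (A : Str → Str → Bool) (m J t : ℕ) (z : Str) (neg : Bool) (r : Str) : Bool :=
  coreP A m J t z neg (r.take m) ((r.drop m).take t)
    (((r.drop m).drop t).take (J * (m + 1)))
    ((((r.drop m).drop t).drop (J * (m + 1))).take (2 * J - 2))
    (((((r.drop m).drop t).drop (J * (m + 1))).drop (2 * J - 2)).take ((J - 1) * m))
    ((((((r.drop m).drop t).drop (J * (m + 1))).drop (2 * J - 2)).drop ((J - 1) * m)).take J)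
    ((((((r.drop m).drop t).drop (J * (m + 1))).drop (2 * J - 2)).drop ((J - 1) * m)).drop J)

/-- the predicate which is counted, with the mode `md` and the string `z` of seeds -/
def Psi (A : Str → Str → Bool) (m : ℕ) (md : Bool) (z g : Str) : Bool :=
  if md then
    (if g.headD false then coreOK A m (JJ m z) (z.length / R m) z true g.tail
      else allF (g.tail.drop (m + z.length / R m - 1)))
  else
    allF ((g.tail.take (R m)).drop (R m - z.length % R m - 1)) &&
      coreOK A m (JJ m z) (z.length / R m + 1)
        (z ++ g.headD false :: (g.tail.take (R m)).take (R m - z.length % R m - 1))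
        (!(g.headD false)) (g.tail.drop (R m))

/-- the length of the guesses which is needed -/
def N0 (m : ℕ) (z : Str) : ℕ :=
  1 + (R m + (m + ((z.length / R m + 1) + (JJ m z * (m + 1) + ((2 * JJ m z - 2) +
    ((JJ m z - 1) * m + JJ m z))))))

/-- the advice for the counting problem -/
def advF (h : ℕ → ℕ) (π : ℕ → Str) (k : ℕ) : Str := pr (π k) (on1 (h k))

/-- the number of guessed blocks of `log²` bits -/
def hF (h : ℕ → ℕ) (k : ℕ) : ℕ := 100 * ((h k + 1) * (h k + 1))

/-- the matrix of the counting problem: the input is `pr y (pr P g)` with the instance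
`y = pr x (md :: z)`, the advice `P` and the guess `g` -/
def BF (B : Lang) (w : Str) : Bool :=
  Psi (relA B (fst (fst w)) (fst (fst (snd w))))
    ((snd (fst (snd w))).length * lg (fst (fst w))) ((snd (fst w)).headD false) (snd (fst w)).tail
    (snd (snd w))

/-- the counting problem -/
noncomputable def FF (h : ℕ → ℕ) (π : ℕ → Str) (B : Lang) (y : Str) (k : ℕ) : ℕ :=
  Nat.card {g : Str // g.length = hF h k * lg y ^ 2 ∧ BF B (pr y (pr (advF h π k) g)) = true}

/-- the query about the instance `pr x (md :: z)` -/
def qF (h : ℕ → ℕ) (x : Str) (k : ℕ) (md : Bool) (z : Str) : Str :=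
  on1 k ++ false :: (on1 (JJ (h k * lg x) z - 1) ++ false :: pr x (md :: z))

/-- one step of the algorithm -/
def stp (F : Str → ℕ → ℕ) (h : ℕ → ℕ) (x : Str) (k : ℕ) (z : Str) : Str :=
  z ++ [bitsOf F k (qF h x k false z)]

/-- the number of the steps -/
def WW (h : ℕ → ℕ) (x : Str) (k : ℕ) : ℕ := (8 * (h k * lg x) + 1) * R (h k * lg x)

/-- the advice for the reduction -/
def advS (h : ℕ → ℕ) (k : ℕ) : Str := pr (on1 k) (on1 (h k))

end Pool.Agent.Lib.Pf91712s
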