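import Pool.Agent.Lib.Pf91712s.Bt
import Pool.Agent.Lib.Pf91712s.Defs
import Pool.Agent.Lib.Pf91712q.Cnt

/-!
The number of the strings counted by `coreOK`. Proof of `core_count`: `natCard_eq` and `split_bsl` seven times: the number of the `r` is the sum over
`u ∈ bsl m`, `T ∈ bsl t`, `P1 ∈ bsl (J (m + 1))`, `q ∈ bsl (2 J - 2)`, `P3 ∈ bsl ((J - 1) m)`, `sg ∈ bsl J`,
`pad ∈ bsl (N - ...)` of `coreP`, which is a conjunction, so for fixed `u`, `T` with `y = cT A m t z T u`:
`∑_{P1} = (1 + y)^J` (`cnt_blk` with `L = 0` and blocks of `m + 1` bits: `1 + y` good blocks),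
`∑_{pad} = 1`, for `q` with `i` ones (`i ≤ J - 1`): `∑_{P3} = y^i` (`cnt_blk` with `t = i`,
`L = (J - 1 - i) m`), `∑_{sg} = 1` or `2^J - 1 = -1` in `ZMod (2^J)`, that is `(-1)^i` times the sign of
`neg`; the number of the `q` with `i` ones and zeros after the first `J - 1 + i` bits is `C(J + i - 1, i)`
(`card_ones`). Then `bt`.
-/

set_option autoImplicit false

namespace Pool.Agent.Lib.Pf91712s

open Pool.Agent.Lib.Pa76659 (Str Lang Prog PO Halts accepts inp)
open Pool.Agent.Lib.Pf91712q (allF blkOK bsl mem_bsl card_bsl natCard_eq split_bsl cnt_blk)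

namespace CoreAuxO

theorem ones_nil : ones [] = 0 := rfl

theorem ones_cons (b : Bool) (q : Str) : ones (b :: q) = (if b then 1 else 0) + ones q := by
  unfold ones
  rw [List.length_cons, List.range_succ_eq_map, List.filter_cons, List.filter_map]
  have h : ((fun i => (b :: q).getD i false) ∘ Nat.succ) = (fun i => q.getD i false) := by
    funext i
    simp
  rw [h]
  cases b <;> simp [Nat.add_comm]

theorem ones_append (v s : Str) : ones (v ++ s) = ones v + ones s := by
  induction v with
  | nil => simp [ones_nil]
  | cons b v ih => rw [List.cons_append, ones_cons, ones_cons, ih, Nat.add_assoc]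

theorem ones_replicate (n : ℕ) : ones (List.replicate n false) = 0 := by
  induction n with
  | zero => rfl
  | succ n ih => rw [List.replicate_succ, ones_cons, ih]; rfl

theorem card_choose (n : ℕ) : ∀ i : ℕ, ((bsl n).filter (fun v => ones v = i)).card = n.choose i := by
  induction n with
  | zero =>
    intro i
    have h0 : bsl 0 = {[]} := by
      ext s
      rw [mem_bsl, Finset.mem_singleton, List.length_eq_zero_iff]
    rw [h0]
    cases i with
    | zero => simp [Finset.filter_singleton, ones_nil]
    | succ i => simp [Finset.filter_singleton, ones_nil]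
  | succ n ih =>
    intro i
    have e : n + 1 = 1 + n := Nat.add_comm _ _
    rw [e, split_bsl, Pool.Agent.Lib.Pf91712q.CntBAux.bsl_one, Finset.sum_insert (by simp),
      Finset.sum_singleton]
    have h1 : ((bsl n).filter (fun s => ones ([false] ++ s) = i)).card = n.choose i := by
      rw [← ih i]
      congr 1
      apply Finset.filter_congr
      intro s _
      rw [List.singleton_append, ones_cons]
      simp
    rw [h1]
    cases i with
    | zero =>
      have h2 : ((bsl n).filter (fun s => ones ([true] ++ s) = 0)).card = 0 := by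
        rw [Finset.card_eq_zero, Finset.filter_eq_empty_iff]
        intro s _
        rw [List.singleton_append, ones_cons]
        simp
      rw [h2]
      simp
    | succ i =>
      have h2 : ((bsl n).filter (fun s => ones ([true] ++ s) = i + 1)).card = n.choose i := by
        rw [← ih i]
        congr 1
        apply Finset.filter_congr
        intro s _
        rw [List.singleton_append, ones_cons]
        simp only [if_true]
        omega
      rw [h2, Nat.add_comm 1 n, Nat.choose_succ_succ, Nat.add_comm]

end CoreAuxO

open CoreAuxO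

/-- strings with `i` ones which are all among the first `J - 1 + i` bits -/
theorem card_ones (J i : ℕ) (hi : i ≤ J - 1) :
    ((bsl (2 * J - 2)).filter (fun q => ones q = i ∧ allF (q.drop (J - 1 + i)) = true)).card =
      Nat.choose (J + i - 1) i := by
  have e : 2 * J - 2 = (J - 1 + i) + (J - 1 - i) := by omega
  rw [e, split_bsl]
  have h : ∀ v ∈ bsl (J - 1 + i), ((bsl (J - 1 - i)).filter (fun s => ones (v ++ s) = i ∧
      allF ((v ++ s).drop (J - 1 + i)) = true)).card = if ones v = i then 1 else 0 := by
    intro v hv
    rw [mem_bsl] at hv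
    have hf : ∀ s ∈ bsl (J - 1 - i), ((ones (v ++ s) = i ∧
      allF ((v ++ s).drop (J - 1 + i)) = true) ↔ (ones v = i ∧ allF s = true)) := by
      intro s _
      rw [List.drop_left' hv]
      constructor
      · rintro ⟨h1, h2⟩
        refine ⟨?_, h2⟩
        rw [Pool.Agent.Lib.Pf91712q.allF_iff] at h2
        rw [ones_append, h2, ones_replicate, Nat.add_zero] at h1
        exact h1
      · rintro ⟨h1, h2⟩
        refine ⟨?_, h2⟩
        rw [Pool.Agent.Lib.Pf91712q.allF_iff] at h2
        rw [ones_append, h2, ones_replicate, Nat.add_zero]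
        exact h1
    rw [Finset.filter_congr hf]
    by_cases hv1 : ones v = i
    · rw [if_pos hv1]
      have : (bsl (J - 1 - i)).filter (fun s => ones v = i ∧ allF s = true) =
          (bsl (J - 1 - i)).filter (fun s => allF s = true) := by
        apply Finset.filter_congr
        intro s _
        simp [hv1]
      rw [this, ← natCard_eq]
      exact Pool.Agent.Lib.Pf91712q.cnt_allF _
    · rw [if_neg hv1, Finset.card_eq_zero, Finset.filter_eq_empty_iff]
      intro s _ h
      exact hv1 h.1
  rw [Finset.sum_congr rfl h, ← Finset.card_filter, card_choose]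
  congr 1
  omega

namespace CoreAux

theorem allT_iff (s : Str) : allT s = true ↔ s = List.replicate s.length true := by
  unfold allT
  rw [decide_eq_true_iff]
  constructor
  · intro h
    apply List.ext_getElem (by simp)
    intro i h1 h2
    have := h i h1
    rw [List.getD_eq_getElem _ _ h1] at this
    rw [this]
    simp
  · intro h i hi
    rw [List.getD_eq_getElem _ _ hi]
    have h2 : s[i]? = (List.replicate s.length true)[i]? := by rw [← h]
    rw [List.getElem?_eq_getElem hi, List.getElem?_replicate, if_pos hi] at h2
    exact Option.some.inj h2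

theorem split1 (a b : ℕ) (Q : Str → Str → Prop) [∀ v s, Decidable (Q v s)] :
    ((bsl (a + b)).filter (fun r => Q (r.take a) (r.drop a))).card =
      ∑ v ∈ bsl a, ((bsl b).filter (fun s => Q v s)).card := by
  rw [split_bsl]
  refine Finset.sum_congr rfl fun v hv => ?_
  rw [mem_bsl] at hv
  congr 1
  apply Finset.filter_congr
  intro s _
  rw [List.take_left' hv, List.drop_left' hv]

theorem card_and (s : Finset Str) (a : Bool) (b : Str → Bool) :
    (s.filter (fun x => (a && b x) = true)).card =
      (if a = true then 1 else 0) * (s.filter (fun x => b x = true)).card := by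
  cases a <;> simp

theorem cnt_pad (L : ℕ) : ((bsl L).filter (fun pad => allF pad = true)).card = 1 := by
  rw [← natCard_eq]
  exact Pool.Agent.Lib.Pf91712q.cnt_allF L

end CoreAux

open CoreAux

theorem card_allT (J : ℕ) : ((bsl J).filter (fun s => (!(allT s)) = true)).card = 2 ^ J - 1 := by
  have h1 := Pool.Agent.Lib.Pf91712q.CntBAux.compl_count J (fun s => allT s)
  rw [natCard_eq, natCard_eq] at h1
  have h2 : ((bsl J).filter (fun s => allT s = true)).card = 1 := by
    rw [Finset.card_eq_one]
    refine ⟨List.replicate J true, ?_⟩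
    ext s
    rw [Finset.mem_filter, mem_bsl, allT_iff, Finset.mem_singleton]
    constructor
    · rintro ⟨h, h'⟩
      rw [h', h]
    · rintro rfl
      simp
  rw [h2] at h1
  omega

namespace CoreAux

/-- the seven parts -/
theorem split7 (a b c d e f L : ℕ) (Q : Str → Str → Str → Str → Str → Str → Str → Bool) :
    ((bsl (a + (b + (c + (d + (e + (f + L))))))).filter (fun r =>
      Q (r.take a) ((r.drop a).take b) (((r.drop a).drop b).take c)
        ((((r.drop a).drop b).drop c).take d)
        (((((r.drop a).drop b).drop c).drop d).take e)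
        ((((((r.drop a).drop b).drop c).drop d).drop e).take f)
        ((((((r.drop a).drop b).drop c).drop d).drop e).drop f) = true)).card =
      ∑ u ∈ bsl a, ∑ T ∈ bsl b, ∑ P1 ∈ bsl c, ∑ q ∈ bsl d, ∑ P3 ∈ bsl e, ∑ sg ∈ bsl f,
        ((bsl L).filter (fun pad => Q u T P1 q P3 sg pad = true)).card := by
  rw [split1 a _ (fun u r => Q u (r.take b) ((r.drop b).take c)
        (((r.drop b).drop c).take d)
        ((((r.drop b).drop c).drop d).take e)
        (((((r.drop b).drop c).drop d).drop e).take f)
        (((((r.drop b).drop c).drop d).drop e).drop f) = true)]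
  refine Finset.sum_congr rfl fun u _ => ?_
  rw [split1 b _ (fun T r => Q u T (r.take c)
        ((r.drop c).take d)
        (((r.drop c).drop d).take e)
        ((((r.drop c).drop d).drop e).take f)
        ((((r.drop c).drop d).drop e).drop f) = true)]
  refine Finset.sum_congr rfl fun T _ => ?_
  rw [split1 c _ (fun P1 r => Q u T P1
        (r.take d)
        ((r.drop d).take e)
        (((r.drop d).drop e).take f)
        (((r.drop d).drop e).drop f) = true)]
  refine Finset.sum_congr rfl fun P1 _ => ?_
  rw [split1 d _ (fun q r => Q u T P1 q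
        (r.take e)
        ((r.drop e).take f)
        ((r.drop e).drop f) = true)]
  refine Finset.sum_congr rfl fun q _ => ?_
  rw [split1 e _ (fun P3 r => Q u T P1 q P3
        (r.take f)
        (r.drop f) = true)]
  refine Finset.sum_congr rfl fun P3 _ => ?_
  rw [split1 f _ (fun sg r => Q u T P1 q P3 sg r = true)]

theorem cnt_blocks1 (m : ℕ) (Y : Str → Bool) :
    ((bsl (m + 1)).filter (fun bv => (if bv.headD false then Y bv.tail else allF bv) = true)).card =
      1 + ((bsl m).filter (fun v => Y v = true)).card := by
  have e : m + 1 = 1 + m := Nat.add_comm _ _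
  rw [e, split_bsl, Pool.Agent.Lib.Pf91712q.CntBAux.bsl_one, Finset.sum_insert (by simp),
    Finset.sum_singleton]
  congr 1
  rw [← cnt_pad m]
  congr 1
  apply Finset.filter_congr
  intro s _
  simp only [List.singleton_append, List.headD_cons, Bool.false_eq_true, if_false]
  rw [Pool.Agent.Lib.Pf91712q.allF_iff, Pool.Agent.Lib.Pf91712q.allF_iff]
  simp [List.replicate_succ]

theorem sgn_count (J : ℕ) (c : Bool) :
    (((bsl J).filter (fun sg => (if c then !(allT sg) else allF sg) = true)).card : ZMod (2 ^ J)) =
      if c then -1 else 1 := by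
  cases c
  · simp only [Bool.false_eq_true, if_false]
    rw [cnt_pad J]
    simp
  · simp only [if_true]
    rw [card_allT]
    rw [Nat.cast_sub Nat.one_le_two_pow]
    rw [ZMod.natCast_self]
    simp


/-- the count for fixed `u`, `T` -/
theorem core_fix (m J L : ℕ) (Y : Str → Bool) (neg : Bool) (hJ : 1 ≤ J) :
    ((∑ P1 ∈ bsl (J * (m + 1)), ∑ q ∈ bsl (2 * J - 2), ∑ P3 ∈ bsl ((J - 1) * m), ∑ sg ∈ bsl J,
        ((bsl L).filter (fun pad =>
          (blkOK (fun bv => if bv.headD false then Y bv.tail else allF bv) (m + 1) J P1 &&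
  (decide (ones q ≤ J - 1) && (allF (q.drop (J - 1 + ones q)) &&
  (blkOK (fun v => Y v) m (ones q) P3 &&
  ((if xor neg (decide (ones q % 2 = 1)) then !(allT sg) else allF sg) && allF pad))))) = true)).card : ℕ) :
      ZMod (2 ^ J)) =
      (if neg then -1 else 1) *
        (if Even ((bsl m).filter (fun v => Y v = true)).card then 1 else 0) := by
  set y : ℕ := ((bsl m).filter (fun v => Y v = true)).card with hy
  -- the counts
  have hP1 : (∑ P1 ∈ bsl (J * (m + 1)), if blkOK (fun bv => if bv.headD false then Y bv.tail else allF bv)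
      (m + 1) J P1 = true then 1 else 0) = (1 + y) ^ J := by
    rw [← Finset.card_filter, ← natCard_eq]
    have h := cnt_blk (fun bv => if bv.headD false then Y bv.tail else allF bv) (m + 1) J 0
    rw [Nat.add_zero] at h
    rw [h, natCard_eq, cnt_blocks1]
  have hP3 : ∀ i, i ≤ J - 1 →
      (∑ P3 ∈ bsl ((J - 1) * m), if blkOK (fun v => Y v) m i P3 = true then 1 else 0) = y ^ i := by
    intro i hi
    rw [← Finset.card_filter, ← natCard_eq]
    have h := cnt_blk (fun v => Y v) m i ((J - 1 - i) * m)
    have e : i * m + (J - 1 - i) * m = (J - 1) * m := by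
      rw [← Nat.add_mul]
      congr 1
      omega
    rw [e] at h
    rw [h, natCard_eq]
  have hsum : (∑ P1 ∈ bsl (J * (m + 1)), ∑ q ∈ bsl (2 * J - 2), ∑ P3 ∈ bsl ((J - 1) * m), ∑ sg ∈ bsl J,
        ((bsl L).filter (fun pad =>
          (blkOK (fun bv => if bv.headD false then Y bv.tail else allF bv) (m + 1) J P1 &&
  (decide (ones q ≤ J - 1) && (allF (q.drop (J - 1 + ones q)) &&
  (blkOK (fun v => Y v) m (ones q) P3 &&
  ((if xor neg (decide (ones q % 2 = 1)) then !(allT sg) else allF sg) && allF pad))))) = true)).card) =
      (1 + y) ^ J * ∑ i ∈ Finset.range J, Nat.choose (J + i - 1) i * (y ^ i *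
        ((bsl J).filter (fun sg =>
          (if xor neg (decide (i % 2 = 1)) then !(allT sg) else allF sg) = true)).card) := by
    have h1 : ∀ (P1 q P3 sg : Str), ((bsl L).filter (fun pad =>
          (blkOK (fun bv => if bv.headD false then Y bv.tail else allF bv) (m + 1) J P1 &&
  (decide (ones q ≤ J - 1) && (allF (q.drop (J - 1 + ones q)) &&
  (blkOK (fun v => Y v) m (ones q) P3 &&
  ((if xor neg (decide (ones q % 2 = 1)) then !(allT sg) else allF sg) && allF pad))))) = true)).card =
        (if blkOK (fun bv => if bv.headD false then Y bv.tail else allF bv) (m + 1) J P1 = true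
          then 1 else 0) *
        ((if decide (ones q ≤ J - 1) = true then 1 else 0) *
        ((if allF (q.drop (J - 1 + ones q)) = true then 1 else 0) *
        ((if blkOK (fun v => Y v) m (ones q) P3 = true then 1 else 0) *
        (if (if xor neg (decide (ones q % 2 = 1)) then !(allT sg) else allF sg) = true
          then 1 else 0)))) := by
      intro P1 q P3 sg
      rw [card_and, card_and, card_and, card_and, card_and, cnt_pad, Nat.mul_one]
    simp only [h1]
    rw [← hP1, Finset.sum_mul]
    refine Finset.sum_congr rfl fun P1 _ => ?_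
    simp only [← Finset.mul_sum]
    congr 1
    -- the sum over `q`
    have h2 : ∀ q ∈ bsl (2 * J - 2),
        (if decide (ones q ≤ J - 1) = true then 1 else 0) *
        ((if allF (q.drop (J - 1 + ones q)) = true then 1 else 0) *
        (∑ P3 ∈ bsl ((J - 1) * m), ((if blkOK (fun v => Y v) m (ones q) P3 = true then 1 else 0) *
        ∑ sg ∈ bsl J, (if (if xor neg (decide (ones q % 2 = 1)) then !(allT sg) else allF sg) = true
          then 1 else 0)))) =
        ∑ i ∈ Finset.range J, (if ones q = i ∧ allF (q.drop (J - 1 + i)) = true then 1 else 0) *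
          (y ^ i * ((bsl J).filter (fun sg =>
          (if xor neg (decide (i % 2 = 1)) then !(allT sg) else allF sg) = true)).card) := by
      intro q _
      by_cases hq : ones q ≤ J - 1
      · rw [Finset.sum_eq_single (ones q)]
        · rw [← Finset.sum_mul, hP3 _ hq, ← Finset.card_filter]
          simp only [hq, decide_true, if_true, true_and, Nat.one_mul]
        · intro i _ hi
          rw [if_neg (fun h => hi h.1.symm), Nat.zero_mul]
        · intro h
          exact absurd (Finset.mem_range.2 (by omega)) h
      · rw [decide_eq_false hq]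
        simp only [Bool.false_eq_true, if_false, Nat.zero_mul]
        symm
        apply Finset.sum_eq_zero
        intro i hi
        rw [Finset.mem_range] at hi
        rw [if_neg (fun h => hq (by omega)), Nat.zero_mul]
    rw [Finset.sum_congr rfl h2, Finset.sum_comm]
    refine Finset.sum_congr rfl fun i hi => ?_
    rw [Finset.mem_range] at hi
    rw [← Finset.sum_mul, ← Finset.card_filter, card_ones J i (by omega)]
  rw [hsum]
  push_cast
  simp only [sgn_count]
  rw [← bt J y hJ]
  rw [← mul_assoc, mul_comm (if neg = true then (-1 : ZMod (2 ^ J)) else 1), mul_assoc]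
  congr 1
  rw [Finset.mul_sum]
  refine Finset.sum_congr rfl fun i _ => ?_
  have hs : (if (xor neg (decide (i % 2 = 1))) = true then (-1 : ZMod (2 ^ J)) else 1) =
      (if neg = true then (-1 : ZMod (2 ^ J)) else 1) * (-1) ^ i := by
    rcases Nat.even_or_odd i with h | h
    · rw [h.neg_one_pow]
      have h0 : decide (i % 2 = 1) = false := by
        rw [Nat.even_iff] at h
        simp [h]
      rw [h0]
      simp
    · rw [h.neg_one_pow]
      have h0 : decide (i % 2 = 1) = true := by
        rw [Nat.odd_iff] at h
        simp [h]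
      rw [h0]
      cases neg <;> simp
  rw [hs]
  ring

end CoreAux

theorem core_count (A : Str → Str → Bool) (m J t : ℕ) (z : Str) (neg : Bool) (N : ℕ) (hJ : 1 ≤ J)
    (hN : m + (t + (J * (m + 1) + ((2 * J - 2) + ((J - 1) * m + J)))) ≤ N) :
    ((Nat.card {r : Str // r.length = N ∧ coreOK A m J t z neg r = true} : ℕ) : ZMod (2 ^ J)) =
      (if neg then -1 else 1) *
        ((∑ u ∈ bsl m, ((bsl t).filter (fun T => Even (cT A m t z T u))).card : ℕ) : ZMod (2 ^ J)) := by
  obtain ⟨L, rfl⟩ : ∃ L, N = m + (t + (J * (m + 1) + ((2 * J - 2) + ((J - 1) * m + (J + L))))) := by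
    refine ⟨N - (m + (t + (J * (m + 1) + ((2 * J - 2) + ((J - 1) * m + J))))), ?_⟩
    omega
  rw [natCard_eq]
  have h := split7 m t (J * (m + 1)) (2 * J - 2) ((J - 1) * m) J L (coreP A m J t z neg)
  have h' : ((bsl (m + (t + (J * (m + 1) + ((2 * J - 2) + ((J - 1) * m + (J + L))))))).filter
      (fun r => coreOK A m J t z neg r = true)).card =
      ∑ u ∈ bsl m, ∑ T ∈ bsl t, ∑ P1 ∈ bsl (J * (m + 1)), ∑ q ∈ bsl (2 * J - 2),
        ∑ P3 ∈ bsl ((J - 1) * m), ∑ sg ∈ bsl J,
        ((bsl L).filter (fun pad => coreP A m J t z neg u T P1 q P3 sg pad = true)).card := h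
  rw [h']
  push_cast
  rw [Finset.mul_sum]
  refine Finset.sum_congr rfl fun u _ => ?_
  have hc : (((bsl t).filter (fun T => Even (cT A m t z T u))).card : ZMod (2 ^ J)) =
      ∑ T ∈ bsl t, if Even (cT A m t z T u) then 1 else 0 := by
    rw [Finset.card_filter]
    push_cast
    rfl
  rw [hc, Finset.mul_sum]
  refine Finset.sum_congr rfl fun T _ => ?_
  have h2 := core_fix m J L (fun v => YT A m t z T u v) neg hJ
  push_cast at h2
  exact h2

end Pool.Agent.Lib.Pf91712s
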