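import Pool.Agent.Lib.Pf91712s.Defs
import Pool.Agent.Lib.Pf91712q.Cnt

/-!
PROOF. `hb m (s0 ++ c) v i = hb m s0 v i` for `i ≤ m` (all indices are `< 3 m + 1`),
`(s0 ++ c).getD (3 m + 1 + j) = c.getD j`. So the number of the `v ∈ V` with `chi = true` is modulo two
`∑_{v ∈ V} ∑_{l < m + 2} c_l [first l hash bits of v are 0] = ∑_l c_l n_l`, `n_l = #{v ∈ V | ...}`, and
`n_j` is odd: flipping the bit `j` of `c` is a bijection between even and odd, so both have
`2 ^ (m + 1)` elements.
-/

set_option autoImplicit false

namespace Pool.Agent.Lib.Pf91712s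

open Pool.Agent.Lib.Pa76659 (Str Lang Prog PO Halts accepts inp)
open Pool.Agent.Lib.Pf91712q (allF blkOK bsl mem_bsl card_bsl natCard_eq split_bsl cnt_blk)

namespace MaskAux

theorem xorN_succ (n : ℕ) (P : ℕ → Bool) : xorN (n + 1) P = xor (xorN n P) (P n) := by
  unfold xorN
  rw [List.range_succ, List.filter_append, List.length_append]
  generalize ((List.range n).filter P).length = a
  cases hP : P n
  · simp [hP]
  · have e : (List.filter P [n]).length = 1 := by simp [hP]
    rw [e, Bool.xor_true]
    rcases Nat.mod_two_eq_zero_or_one a with h | h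
    · have h2 : (a + 1) % 2 = 1 := by omega
      simp [h, h2]
    · have h2 : (a + 1) % 2 = 0 := by omega
      simp [h, h2]

theorem xorN_congr (n : ℕ) (P Q : ℕ → Bool) (h : ∀ l < n, P l = Q l) : xorN n P = xorN n Q := by
  induction n with
  | zero => rfl
  | succ n ih =>
    rw [xorN_succ, xorN_succ, ih (fun l hl => h l (by omega)), h n (by omega)]

theorem xorN_flip (n j : ℕ) (P Q : ℕ → Bool) (b : Bool) (hj : j < n) (h1 : Q j = xor (P j) b)
    (h2 : ∀ l, l ≠ j → Q l = P l) : xorN n Q = xor (xorN n P) b := by
  induction n with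
  | zero => omega
  | succ n ih =>
    rw [xorN_succ, xorN_succ]
    by_cases e : j = n
    · subst e
      rw [xorN_congr j Q P (fun l hl => h2 l (by omega)), h1, Bool.xor_assoc]
    · rw [ih (by omega), h2 n (fun h => e h.symm), Bool.xor_assoc, Bool.xor_assoc,
        Bool.xor_comm b (P n)]

theorem half (S : Finset Str) (f : Str → Str) (P : Str → Prop) [DecidablePred P]
    (h1 : ∀ c ∈ S, f c ∈ S) (h2 : ∀ c ∈ S, f (f c) = c) (h3 : ∀ c ∈ S, (P (f c) ↔ ¬ P c)) :
    2 * (S.filter P).card = S.card := by
  have e : (S.filter P).card = (S.filter (fun c => ¬ P c)).card := by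
    refine Finset.card_bij' (fun c _ => f c) (fun c _ => f c) ?_ ?_ ?_ ?_
    · intro c hc
      rw [Finset.mem_filter] at hc ⊢
      refine ⟨h1 c hc.1, fun h => ?_⟩
      exact (h3 c hc.1).1 h hc.2
    · intro c hc
      rw [Finset.mem_filter] at hc ⊢
      exact ⟨h1 c hc.1, (h3 c hc.1).2 hc.2⟩
    · intro c hc
      rw [Finset.mem_filter] at hc
      exact h2 c hc.1
    · intro c hc
      rw [Finset.mem_filter] at hc
      exact h2 c hc.1
  have k := Finset.card_filter_add_card_filter_not (s := S) P
  omega

theorem card_xor (V : Finset Str) (f g : Str → Bool) :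
    (V.filter (fun v => xor (f v) (g v) = true)).card +
      2 * (V.filter (fun v => f v = true ∧ g v = true)).card =
      (V.filter (fun v => f v = true)).card + (V.filter (fun v => g v = true)).card := by
  simp only [Finset.card_filter]
  rw [Finset.mul_sum, ← Finset.sum_add_distrib, ← Finset.sum_add_distrib]
  refine Finset.sum_congr rfl fun v _ => ?_
  cases f v <;> cases g v <;> simp

/-- flip the bit `j` -/
def flip (j : ℕ) (c : Str) : Str := c.set j (!(c.getD j false))

theorem flip_length (j : ℕ) (c : Str) : (flip j c).length = c.length := by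
  unfold flip
  exact List.length_set

theorem flip_getD_self (j : ℕ) (c : Str) (hj : j < c.length) :
    (flip j c).getD j false = !(c.getD j false) := by
  unfold flip
  rw [List.getD_eq_getElem?_getD, List.getElem?_set]
  simp [hj]

theorem flip_getD_ne (j l : ℕ) (c : Str) (h : l ≠ j) : (flip j c).getD l false = c.getD l false := by
  unfold flip
  rw [List.getD_eq_getElem?_getD, List.getElem?_set, if_neg (fun e => h e.symm),
    ← List.getD_eq_getElem?_getD]

theorem flip_flip (j : ℕ) (c : Str) (hj : j < c.length) : flip j (flip j c) = c := by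
  refine List.ext_getElem (by rw [flip_length, flip_length]) fun i h1 h2 => ?_
  have e : ∀ (t : Str) (h : i < t.length), t[i] = t.getD i false := by
    intro t h
    rw [List.getD_eq_getElem _ _ h]
  rw [e _ h1, e _ h2]
  by_cases hi : i = j
  · subst hi
    rw [flip_getD_self i _ (by rw [flip_length]; exact hj), flip_getD_self i _ hj, Bool.not_not]
  · rw [flip_getD_ne j i _ hi, flip_getD_ne j i _ hi]

theorem getD_left (s c : Str) (i : ℕ) (h : i < s.length) :
    (s ++ c).getD i false = s.getD i false := by
  rw [List.getD_eq_getElem?_getD, List.getD_eq_getElem?_getD, List.getElem?_append_left h]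

theorem getD_right (s c : Str) (i : ℕ) : (s ++ c).getD (s.length + i) false = c.getD i false := by
  rw [List.getD_eq_getElem?_getD, List.getD_eq_getElem?_getD,
    List.getElem?_append_right (Nat.le_add_right _ _), Nat.add_sub_cancel_left]

theorem hb_append (m : ℕ) (s c v : Str) (hs : s.length = 3 * m + 1) (i : ℕ) (hi : i ≤ m) :
    hb m (s ++ c) v i = hb m s v i := by
  unfold hb
  rw [getD_left s c (2 * m + i) (by omega)]
  congr 1
  refine xorN_congr m _ _ fun l hl => ?_
  rw [getD_left s c (i + l) (by omega)]

theorem chi_append (m : ℕ) (s c v : Str) (hs : s.length = 3 * m + 1) :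
    chi m (s ++ c) v =
      xorN (m + 2) (fun l => c.getD l false && decide (∀ i < l, hb m s v i = false)) := by
  unfold chi
  refine xorN_congr (m + 2) _ _ fun l hl => ?_
  rw [← hs, getD_right]
  congr 1
  refine decide_eq_decide.mpr ?_
  constructor
  · intro h i hi
    rw [← hb_append m s c v hs i (by omega)]
    exact h i hi
  · intro h i hi
    rw [hb_append m s c v hs i (by omega)]
    exact h i hi

theorem chi_flip (m : ℕ) (s c v : Str) (hs : s.length = 3 * m + 1) (hc : c.length = m + 2) (j : ℕ)
    (hj : j ≤ m + 1) :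
    chi m (s ++ flip j c) v =
      xor (chi m (s ++ c) v) (decide (∀ i < j, hb m s v i = false)) := by
  rw [chi_append m s _ v hs, chi_append m s c v hs]
  refine xorN_flip (m + 2) j _ _ _ (by omega) ?_ ?_
  · show ((flip j c).getD j false && _) = xor (c.getD j false && _) _
    rw [flip_getD_self j c (by omega)]
    cases c.getD j false <;> cases decide (∀ i < j, hb m s v i = false) <;> rfl
  · intro l hl
    show ((flip j c).getD l false && _) = (c.getD l false && _)
    rw [flip_getD_ne j l c hl]

end MaskAux

theorem mask (m : ℕ) (V : Finset Str) (s0 : Str) (hs0 : s0 ∈ bsl (3 * m + 1)) (j : ℕ) (hj : j ≤ m + 1)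
    (hodd : Odd ((V.filter (fun v => ∀ i < j, hb m s0 v i = false)).card)) :
    2 * ((bsl (m + 2)).filter (fun c => Even ((V.filter (fun v => chi m (s0 ++ c) v = true)).card))).card
      = 2 ^ (m + 2) := by
  have hs := mem_bsl.mp hs0
  rw [MaskAux.half (bsl (m + 2)) (MaskAux.flip j) _ ?_ ?_ ?_, card_bsl]
  · intro c hc
    rw [mem_bsl] at hc ⊢
    rw [MaskAux.flip_length, hc]
  · intro c hc
    rw [mem_bsl] at hc
    exact MaskAux.flip_flip j c (by omega)
  · intro c hc
    rw [mem_bsl] at hc
    have e1 : (V.filter (fun v => chi m (s0 ++ MaskAux.flip j c) v = true)) =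
        V.filter (fun v => xor (chi m (s0 ++ c) v)
          (decide (∀ i < j, hb m s0 v i = false)) = true) := by
      refine Finset.filter_congr fun v _ => ?_
      rw [MaskAux.chi_flip m s0 c v hs hc j hj]
    have e2 := MaskAux.card_xor V (fun v => chi m (s0 ++ c) v)
      (fun v => decide (∀ i < j, hb m s0 v i = false))
    have e3 : (V.filter (fun v => decide (∀ i < j, hb m s0 v i = false) = true)).card =
        (V.filter (fun v => ∀ i < j, hb m s0 v i = false)).card := by
      congr 1
      refine Finset.filter_congr fun v _ => ?_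
      exact decide_eq_true_iff
    rw [e1]
    rw [e3] at e2
    rw [Nat.not_even_iff_odd]
    rw [Nat.odd_iff] at hodd
    rw [Nat.even_iff, Nat.odd_iff]
    omega

end Pool.Agent.Lib.Pf91712s
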