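import Pool.Agent.Lib.Pf91712s.HashA
import Pool.Agent.Lib.Pf91712s.Mask

/-!
PROOF of `detectV`. Let `n = V.card ≥ 1`, `j = Nat.clog 2 n + 1 ≤ m + 1`
(`V ⊆ bsl m`, so `n ≤ 2 ^ m`), `n ≤ 2 ^ (j - 1)`, `2 ^ j ≤ 4 n` (in fact `2 ^ (j - 2) < n` for `n ≥ 2`;
for `n = 1`: `j = 1`). For `s0 ∈ bsl (3 m + 1)` let `X(s0) = #{v ∈ V | first j hash bits 0}`.
`[X = 1] ≥ X - X (X - 1)`; sum over `s0` with `hash1`, `hash2` (double counting, `Finset.sum_comm`):
`4^j #{X = 1} ≥ 2^(3m+1) (2^j n - n (n - 1)) ≥ 2^(3m+1) n (2^j - n) `, and `16 n (2^j - n) ≥ 3 * 4^j`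
for `4 n ≥ 2^j ≥ 2 n`. So `16 #{s0 | X(s0) = 1} ≥ 3 * 2^(3m+1)`. `R m = (3 m + 1) + (m + 2)`,
`split_bsl`: for `X(s0) = 1` (odd) exactly half of the `c` are even (`mask`), for the others at most all.
Total even `≤ 2^(4m+3) - (1/2) (3/16) 2^(4m+3)`.
`detect`: `V = {v ∈ bsl m | A u v = false}`, `c1 A m s u = #{v ∈ V | chi m s v}`.
-/

set_option autoImplicit false

namespace Pool.Agent.Lib.Pf91712s

open Pool.Agent.Lib.Pa76659 (Str Lang Prog PO Halts accepts inp)
open Pool.Agent.Lib.Pf91712q (allF blkOK bsl mem_bsl card_bsl natCard_eq split_bsl cnt_blk)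

namespace DetectAux

theorem exj (n m : ℕ) (h1 : 1 ≤ n) (h2 : n ≤ 2 ^ m) :
    ∃ j, j ≤ m + 1 ∧ 2 * n ≤ 2 ^ j ∧ 2 ^ j ≤ 4 * n := by
  induction m with
  | zero =>
    have h3 : n ≤ 1 := by simpa using h2
    exact ⟨1, le_refl _, by omega, by omega⟩
  | succ m ih =>
    by_cases h : n ≤ 2 ^ m
    · obtain ⟨j, hj, ha, hb⟩ := ih h
      exact ⟨j, by omega, ha, hb⟩
    · have e1 : 2 ^ (m + 1) = 2 ^ m * 2 := pow_succ 2 m
      have e2 : 2 ^ (m + 2) = 2 ^ (m + 1) * 2 := pow_succ 2 (m + 1)
      exact ⟨m + 2, le_refl _, by omega, by omega⟩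

theorem sum_one (S V : Finset Str) (Z : Str → Str → Prop) [∀ s v, Decidable (Z s v)] :
    ∑ s ∈ S, (V.filter (fun v => Z s v)).card = ∑ v ∈ V, (S.filter (fun s => Z s v)).card := by
  simp only [Finset.card_filter]
  exact Finset.sum_comm

theorem sum_two (S V : Finset Str) (Z : Str → Str → Prop) [∀ s v, Decidable (Z s v)] :
    ∑ s ∈ S, (V.filter (fun v => Z s v)).card * (V.filter (fun v => Z s v)).card =
      ∑ v ∈ V, ∑ w ∈ V, (S.filter (fun s => Z s v ∧ Z s w)).card := by
  have h : ∀ s ∈ S, (V.filter (fun v => Z s v)).card * (V.filter (fun v => Z s v)).card =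
      ∑ v ∈ V, ∑ w ∈ V, (if Z s v ∧ Z s w then 1 else 0) := by
    intro s _
    rw [Finset.card_filter, Finset.sum_mul_sum]
    refine Finset.sum_congr rfl fun v _ => Finset.sum_congr rfl fun w _ => ?_
    by_cases h1 : Z s v <;> by_cases h2 : Z s w <;> simp [h1, h2]
  rw [Finset.sum_congr rfl h, Finset.sum_comm]
  refine Finset.sum_congr rfl fun v _ => ?_
  rw [Finset.sum_comm]
  refine Finset.sum_congr rfl fun w _ => ?_
  rw [Finset.card_filter]

theorem ones_lower (S V : Finset Str) (Z : Str → Str → Prop) [∀ s v, Decidable (Z s v)] (P M : ℕ)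
    (h1 : ∀ v ∈ V, P * (S.filter (fun s => Z s v)).card = M)
    (h2 : ∀ v ∈ V, ∀ w ∈ V, v ≠ w → P * P * (S.filter (fun s => Z s v ∧ Z s w)).card = M)
    (hP : 2 * V.card ≤ P) (hP2 : P ≤ 4 * V.card) (hn : 1 ≤ V.card) :
    3 * M ≤ 16 * (S.filter (fun s => (V.filter (fun v => Z s v)).card = 1)).card := by
  have hA : P * ∑ s ∈ S, (V.filter (fun v => Z s v)).card = V.card * M := by
    rw [sum_one, Finset.mul_sum, Finset.sum_congr rfl h1, Finset.sum_const, smul_eq_mul]
  have hB : P * P * ∑ s ∈ S, (V.filter (fun v => Z s v)).card * (V.filter (fun v => Z s v)).card =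
      V.card * (P * M + (V.card - 1) * M) := by
    rw [sum_two, Finset.mul_sum]
    have h3 : ∀ v ∈ V, P * P * ∑ w ∈ V, (S.filter (fun s => Z s v ∧ Z s w)).card =
        P * M + (V.card - 1) * M := by
      intro v hv
      rw [Finset.mul_sum, ← Finset.add_sum_erase V _ hv]
      congr 1
      · have h4 : (S.filter (fun s => Z s v ∧ Z s v)) = S.filter (fun s => Z s v) := by
          refine Finset.filter_congr fun s _ => ?_
          exact and_self_iff
        rw [h4, mul_assoc, h1 v hv]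
      · have h5 : ∀ w ∈ V.erase v, P * P * (S.filter (fun s => Z s v ∧ Z s w)).card = M := by
          intro w hw
          rw [Finset.mem_erase] at hw
          exact h2 v hv w hw.2 (Ne.symm hw.1)
        rw [Finset.sum_congr rfl h5, Finset.sum_const, smul_eq_mul, Finset.card_erase_of_mem hv]
    rw [Finset.sum_congr rfl h3, Finset.sum_const, smul_eq_mul]
  have hC : 2 * ∑ s ∈ S, (V.filter (fun v => Z s v)).card ≤
      ∑ s ∈ S, (V.filter (fun v => Z s v)).card * (V.filter (fun v => Z s v)).card +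
        (S.filter (fun s => (V.filter (fun v => Z s v)).card = 1)).card := by
    rw [Finset.card_filter (fun s => (V.filter (fun v => Z s v)).card = 1) S,
      ← Finset.sum_add_distrib, Finset.mul_sum]
    refine Finset.sum_le_sum fun s _ => ?_
    generalize (V.filter (fun v => Z s v)).card = x
    by_cases hx : x = 1
    · simp [hx]
    · rw [if_neg hx, add_zero]
      rcases Nat.eq_zero_or_pos x with h0 | h0
      · simp [h0]
      · exact Nat.mul_le_mul_right x (by omega)
  revert hA hB hC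
  generalize ∑ s ∈ S, (V.filter (fun v => Z s v)).card * (V.filter (fun v => Z s v)).card = B
  generalize ∑ s ∈ S, (V.filter (fun v => Z s v)).card = A
  generalize (S.filter (fun s => (V.filter (fun v => Z s v)).card = 1)).card = T
  revert hn hP hP2
  generalize V.card = n
  intro hP hP2 hn hA hB hC
  obtain ⟨q, rfl⟩ : ∃ q, n = q + 1 := ⟨n - 1, by omega⟩
  rw [Nat.add_sub_cancel] at hB
  have hPpos : 0 < P * P := Nat.mul_pos (by omega) (by omega)
  refine le_of_mul_le_mul_left ?_ hPpos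
  have k1 : 2 * (P * ((q + 1) * M)) ≤ (q + 1) * (P * M + q * M) + P * P * T := by
    have k2 : P * P * (2 * A) ≤ P * P * (B + T) := Nat.mul_le_mul_left _ hC
    have k3 : P * P * (2 * A) = 2 * (P * (P * A)) := by ring
    have k4 : P * P * (B + T) = P * P * B + P * P * T := by ring
    rw [k3, k4, hA, hB] at k2
    exact k2
  zify at k1 hP hP2 ⊢
  have hM : (0 : ℤ) ≤ (M : ℤ) := Int.natCast_nonneg M
  have k5 : (0 : ℤ) ≤ (3 * (P : ℤ) - 4 * ((q : ℤ) + 1)) * (4 * ((q : ℤ) + 1) - P) * M := by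
    refine mul_nonneg (mul_nonneg ?_ ?_) hM
    · linarith
    · linarith
  have k6 : (0 : ℤ) ≤ ((q : ℤ) + 1) * M := by positivity
  nlinarith [k1, k5, k6]

end DetectAux

theorem detectV (m : ℕ) (V : Finset Str) (hV : V ⊆ bsl m) (hne : V.Nonempty) :
    32 * ((bsl (R m)).filter (fun s => Even ((V.filter (fun v => chi m s v = true)).card))).card ≤
      29 * 2 ^ (R m) := by
  have hn : 1 ≤ V.card := Finset.card_pos.mpr hne
  have hn2 : V.card ≤ 2 ^ m := by
    have h := Finset.card_le_card hV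
    rwa [card_bsl] at h
  obtain ⟨j, hj, hP, hP2⟩ := DetectAux.exj V.card m hn hn2
  have key := DetectAux.ones_lower (bsl (3 * m + 1)) V
    (fun s v => ∀ i < j, hb m s v i = false) (2 ^ j) (2 ^ (3 * m + 1))
    (fun v hv => hash1 m j hj v (hV hv))
    (fun v hv w hw hvw => by
      rw [← mul_pow]
      exact hash2 m j hj v w (hV hv) (hV hw) hvw) hP hP2 hn
  have hR : R m = (3 * m + 1) + (m + 2) := by
    unfold R
    omega
  rw [hR, split_bsl]
  have hE : ∀ s ∈ bsl (3 * m + 1),
      2 * ((bsl (m + 2)).filter (fun c => Even ((V.filter (fun v => chi m (s ++ c) v = true)).card))).card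
        + (if (V.filter (fun v => ∀ i < j, hb m s v i = false)).card = 1 then 1 else 0) *
          2 ^ (m + 2) ≤ 2 * 2 ^ (m + 2) := by
    intro s hs
    by_cases h : (V.filter (fun v => ∀ i < j, hb m s v i = false)).card = 1
    · rw [if_pos h, mask m V s hs j hj (by rw [h]; exact odd_one)]
      omega
    · rw [if_neg h, zero_mul, add_zero]
      refine Nat.mul_le_mul_left 2 ?_
      exact le_trans (Finset.card_filter_le _ _) (le_of_eq (card_bsl _))
  have hS := Finset.sum_le_sum hE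
  rw [Finset.sum_add_distrib, ← Finset.mul_sum, ← Finset.sum_mul, ← Finset.card_filter,
    Finset.sum_const, smul_eq_mul, card_bsl] at hS
  have hk : 3 * 2 ^ (3 * m + 1) * 2 ^ (m + 2) ≤
      16 * ((bsl (3 * m + 1)).filter
        (fun s => (V.filter (fun v => ∀ i < j, hb m s v i = false)).card = 1)).card * 2 ^ (m + 2) :=
    Nat.mul_le_mul_right _ key
  rw [pow_add]
  nlinarith [hS, hk]

theorem detect (A : Str → Str → Bool) (m : ℕ) (u : Str) (hu : ∃ v ∈ bsl m, A u v = false) :
    32 * ((bsl (R m)).filter (fun s => Even (c1 A m s u))).card ≤ 29 * 2 ^ (R m) := by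
  obtain ⟨v, hv, hA⟩ := hu
  have h := detectV m ((bsl m).filter (fun v => A u v = false)) (Finset.filter_subset _ _)
    ⟨v, Finset.mem_filter.mpr ⟨hv, hA⟩⟩
  have e : ∀ s : Str, c1 A m s u =
      (((bsl m).filter (fun v => A u v = false)).filter (fun v => chi m s v = true)).card := by
    intro s
    unfold c1
    rw [Finset.filter_filter]
    congr 1
    refine Finset.filter_congr fun w _ => ?_
    cases chi m s w <;> cases A u w <;> simp
  simp only [e]
  exact h

end Pool.Agent.Lib.Pf91712s
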