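import Pool.Agent.Lib.Pf91712s.Detect

/-!
conditional expectations. PROOF. Let `z` have length `e R m` (`e` complete seeds) and let
`z'` be the result of `R m` steps. For `n < R m` and `p` of length `n`: `SB A m (z ++ p) b` is the sum of
`NN A m (e + 1) (z ++ s)` over the `s ∈ bsl (R m)` which extend `p ++ [b]`; the step takes the bit with the
smaller sum, so the sum over the extensions of the chosen prefix is at most half of the one before. Hence
`2^(R m) NN A m (e + 1) z' ≤ ∑_{s ∈ bsl (R m)} NN A m (e + 1) (z ++ s)`. Here `blk m (z ++ s) l = blk m z l` for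
`l < e` and `blk m (z ++ s) e = s`, so `NN A m (e + 1) (z ++ s)` counts the `u` which are not detected by `z` and
with `c1 A m s u` even. A `u` which passes all `v` is counted for all `s` (`c1 = 0`); any other `u` for at most
`29/32` of the `s` (`detect`). So `32 (NN' - GG) ≤ 29 (NN - GG)`, and `NN ≥ GG` always. After `8 m + 1` seeds
`32^(8m+1) (NN - GG) ≤ 29^(8m+1) 2^m < 32^(8m+1)` as `2 * 29^8 ≤ 32^8`. (`NN A m 0 [] = 2^m`.)
-/

set_option autoImplicit false

namespace Pool.Agent.Lib.Pf91712s

open Pool.Agent.Lib.Pa76659 (Str Lang Prog PO Halts accepts inp)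
open Pool.Agent.Lib.Pf91712q (allF blkOK bsl mem_bsl card_bsl natCard_eq split_bsl cnt_blk)

namespace GreedyAux

theorem R_pos (m : ℕ) : 0 < R m := by unfold R; omega

theorem sum_bsl_succ (n : ℕ) (f : Str → ℕ) :
    ∑ w ∈ bsl (n + 1), f w = ∑ w ∈ bsl n, f (true :: w) + ∑ w ∈ bsl n, f (false :: w) := by
  classical
  have h : bsl (n + 1) = (bsl n).image (fun w => true :: w) ∪
      (bsl n).image (fun w => false :: w) := by
    ext s
    simp only [mem_bsl, Finset.mem_union, Finset.mem_image]
    constructor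
    · intro hs
      cases s with
      | nil => simp at hs
      | cons b s =>
        cases b
        · exact Or.inr ⟨s, by simpa using hs, rfl⟩
        · exact Or.inl ⟨s, by simpa using hs, rfl⟩
    · rintro (⟨w, hw, rfl⟩ | ⟨w, hw, rfl⟩) <;> simp [hw]
  have hd : Disjoint ((bsl n).image (fun w => true :: w))
      ((bsl n).image (fun w => false :: w)) := by
    rw [Finset.disjoint_left]
    intro s h1 h2
    obtain ⟨w, _, rfl⟩ := Finset.mem_image.1 h1
    obtain ⟨w', _, h3⟩ := Finset.mem_image.1 h2
    simp at h3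
  rw [h, Finset.sum_union hd, Finset.sum_image, Finset.sum_image]
  · intro a _ b _ hab
    simpa using hab
  · intro a _ b _ hab
    simpa using hab

theorem sum_bsl_zero (f : Str → ℕ) : ∑ w ∈ bsl 0, f w = f [] := by
  have h : bsl 0 = {[]} := by
    ext s
    rw [mem_bsl, Finset.mem_singleton, List.length_eq_zero_iff]
  rw [h, Finset.sum_singleton]

/-- the sum over the extensions of `p` by `n` bits -/
def EE (f : Str → ℕ) (n : ℕ) (p : Str) : ℕ := ∑ w ∈ bsl n, f (p ++ w)

theorem EE_succ (f : Str → ℕ) (n : ℕ) (p : Str) :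
    EE f (n + 1) p = EE f n (p ++ [true]) + EE f n (p ++ [false]) := by
  unfold EE
  rw [sum_bsl_succ]
  simp only [List.append_assoc, List.singleton_append]

theorem divmod (m e : ℕ) (z p : Str) (hz : z.length = e * R m) (hp : p.length < R m) :
    (z ++ p).length / R m = e ∧ (z ++ p).length % R m = p.length := by
  rw [List.length_append, hz, Nat.add_comm]
  exact ⟨by rw [Nat.add_mul_div_right _ _ (R_pos m), Nat.div_eq_of_lt hp]; omega,
    by rw [Nat.add_mul_mod_self_right, Nat.mod_eq_of_lt hp]⟩

theorem SB_eq (A : Str → Str → Bool) (m e : ℕ) (z p : Str) (hz : z.length = e * R m)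
    (hp : p.length < R m) (b : Bool) :
    SB A m (z ++ p) b = EE (fun s => NN A m (e + 1) (z ++ s)) (R m - p.length - 1) (p ++ [b]) := by
  obtain ⟨h1, h2⟩ := divmod m e z p hz hp
  unfold SB EE
  rw [h1, h2]
  refine Finset.sum_congr rfl fun w _ => ?_
  simp only [List.append_assoc, List.singleton_append]

theorem run_block (A : Str → Str → Bool) (m : ℕ) (st : Str → Str)
    (hst : ∀ z, z.length < (8 * m + 1) * R m →
      st z = z ++ [decide (SB A m z true < SB A m z false)])
    (e : ℕ) (he : e < 8 * m + 1) (z : Str) (hz : z.length = e * R m) :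
    ∀ k, k ≤ R m → ∃ p : Str, p.length = k ∧ st^[k] z = z ++ p ∧
      2 ^ k * EE (fun s => NN A m (e + 1) (z ++ s)) (R m - k) p ≤
        EE (fun s => NN A m (e + 1) (z ++ s)) (R m) [] := by
  intro k
  induction k with
  | zero => intro _; exact ⟨[], rfl, by simp, by simp⟩
  | succ k ih =>
    intro hk
    obtain ⟨p, hp, hfp, hS⟩ := ih (by omega)
    have hlen : (z ++ p).length < (8 * m + 1) * R m := by
      rw [List.length_append, hz, hp]
      have h1 : (e + 1) * R m ≤ (8 * m + 1) * R m := Nat.mul_le_mul_right _ he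
      have h2 : (e + 1) * R m = e * R m + R m := by ring
      omega
    have hb : ∀ b, SB A m (z ++ p) b =
        EE (fun s => NN A m (e + 1) (z ++ s)) (R m - (k + 1)) (p ++ [b]) := by
      intro b
      rw [SB_eq A m e z p hz (by omega) b, hp, Nat.sub_sub]
    have hsplit := EE_succ (fun s => NN A m (e + 1) (z ++ s)) (R m - (k + 1)) p
    have hk1 : R m - (k + 1) + 1 = R m - k := by omega
    rw [hk1] at hsplit
    refine ⟨p ++ [decide (SB A m (z ++ p) true < SB A m (z ++ p) false)], by simp [hp], ?_, ?_⟩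
    · rw [Function.iterate_succ_apply', hfp, hst _ hlen, List.append_assoc]
    · have h : 2 * EE (fun s => NN A m (e + 1) (z ++ s)) (R m - (k + 1))
          (p ++ [decide (SB A m (z ++ p) true < SB A m (z ++ p) false)]) ≤
          EE (fun s => NN A m (e + 1) (z ++ s)) (R m - k) p := by
        by_cases hle : SB A m (z ++ p) true < SB A m (z ++ p) false
        · rw [decide_eq_true hle, hsplit]
          rw [hb, hb] at hle
          omega
        · rw [decide_eq_false hle, hsplit]
          rw [hb, hb] at hle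
          omega
      calc 2 ^ (k + 1) * EE (fun s => NN A m (e + 1) (z ++ s)) (R m - (k + 1))
            (p ++ [decide (SB A m (z ++ p) true < SB A m (z ++ p) false)])
          = 2 ^ k * (2 * EE (fun s => NN A m (e + 1) (z ++ s)) (R m - (k + 1))
            (p ++ [decide (SB A m (z ++ p) true < SB A m (z ++ p) false)])) := by ring
        _ ≤ 2 ^ k * EE (fun s => NN A m (e + 1) (z ++ s)) (R m - k) p :=
          Nat.mul_le_mul_left _ h
        _ ≤ _ := hS

theorem blk_lt (m e l : ℕ) (z s : Str) (hz : z.length = e * R m) (hl : l < e) :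
    blk m (z ++ s) l = blk m z l := by
  have h1 : (l + 1) * R m ≤ e * R m := Nat.mul_le_mul_right _ hl
  have h2 : (l + 1) * R m = l * R m + R m := by ring
  unfold blk
  rw [List.drop_append_of_le_length (by omega), List.take_append_of_le_length]
  rw [List.length_drop]
  omega

theorem blk_eq (m e : ℕ) (z s : Str) (hz : z.length = e * R m) (hs : s.length = R m) :
    blk m (z ++ s) e = s := by
  unfold blk
  have e3 : (z ++ s).drop (e * R m) = s := by
    rw [← hz]; exact List.drop_left
  rw [e3, ← hs, List.take_length]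

theorem c1_zero (A : Str → Str → Bool) (m : ℕ) (s u : Str) (hu : ∀ v ∈ bsl m, A u v = true) :
    c1 A m s u = 0 := by
  unfold c1
  rw [Finset.card_eq_zero, Finset.filter_eq_empty_iff]
  intro v hv
  rw [hu v hv]
  simp

/-- the strings which are not detected by the first `t` tests -/
noncomputable def Uf (A : Str → Str → Bool) (m t : ℕ) (z : Str) : Finset Str :=
  (bsl m).filter (fun u => ∀ l < t, Even (c1 A m (blk m z l) u))

theorem NN_succ (A : Str → Str → Bool) (m e : ℕ) (z s : Str) (hz : z.length = e * R m)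
    (hs : s.length = R m) :
    NN A m (e + 1) (z ++ s) = ((Uf A m e z).filter (fun u => Even (c1 A m s u))).card := by
  unfold NN Uf
  rw [Finset.filter_filter]
  congr 1
  apply Finset.filter_congr
  intro u _
  constructor
  · intro h
    refine ⟨fun l hl => ?_, ?_⟩
    · have := h l (by omega)
      rwa [blk_lt m e l z s hz hl] at this
    · have := h e (by omega)
      rwa [blk_eq m e z s hz hs] at this
  · rintro ⟨h1, h2⟩ l hl
    rcases Nat.lt_succ_iff_lt_or_eq.1 hl with hl | hl
    · rw [blk_lt m e l z s hz hl]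
      exact h1 l hl
    · subst hl
      rw [blk_eq m l z s hz hs]
      exact h2

theorem GG_le (A : Str → Str → Bool) (m t : ℕ) (z : Str) : GG A m ≤ NN A m t z := by
  unfold GG NN
  apply Finset.card_le_card
  intro u hu
  rw [Finset.mem_filter] at hu ⊢
  refine ⟨hu.1, fun l _ => ?_⟩
  rw [c1_zero A m _ u hu.2]
  exact Even.zero

theorem double (A : Str → Str → Bool) (m e : ℕ) (z : Str) (hz : z.length = e * R m) :
    32 * EE (fun s => NN A m (e + 1) (z ++ s)) (R m) [] ≤
      2 ^ R m * (29 * NN A m e z + 3 * GG A m) := by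
  classical
  have h1 : EE (fun s => NN A m (e + 1) (z ++ s)) (R m) [] =
      ∑ u ∈ Uf A m e z, ((bsl (R m)).filter (fun s => Even (c1 A m s u))).card := by
    unfold EE
    simp only [List.nil_append]
    rw [Finset.sum_congr rfl (fun s hs => NN_succ A m e z s hz (mem_bsl.1 hs))]
    simp only [Finset.card_filter]
    rw [Finset.sum_comm]
  have h2 : ∀ u ∈ Uf A m e z, 32 * ((bsl (R m)).filter (fun s => Even (c1 A m s u))).card ≤
      2 ^ R m * (29 + if (∀ v ∈ bsl m, A u v = true) then 3 else 0) := by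
    intro u _
    by_cases hu : ∀ v ∈ bsl m, A u v = true
    · rw [if_pos hu]
      have h3 := Finset.card_filter_le (bsl (R m)) (fun s => Even (c1 A m s u))
      rw [card_bsl] at h3
      omega
    · rw [if_neg hu]
      have h3 := detect A m u (by
        push Not at hu
        obtain ⟨v, hv, h4⟩ := hu
        exact ⟨v, hv, by simpa using h4⟩)
      omega
  have h5 : GG A m = ((Uf A m e z).filter (fun u => ∀ v ∈ bsl m, A u v = true)).card := by
    unfold GG Uf
    rw [Finset.filter_filter]
    congr 1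
    apply Finset.filter_congr
    intro u _
    constructor
    · intro h
      refine ⟨fun l _ => ?_, h⟩
      rw [c1_zero A m _ u h]
      exact Even.zero
    · rintro ⟨_, h⟩
      exact h
  rw [h1, Finset.mul_sum]
  refine le_trans (Finset.sum_le_sum h2) ?_
  rw [← Finset.mul_sum, Finset.sum_add_distrib, Finset.sum_const, h5, Finset.card_filter,
    Finset.mul_sum]
  apply Nat.mul_le_mul_left
  have h6 : (Uf A m e z).card = NN A m e z := rfl
  rw [h6, smul_eq_mul]
  apply le_of_eq
  rw [Nat.mul_comm (NN A m e z) 29]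
  congr 1
  apply Finset.sum_congr rfl
  intro u _
  split_ifs <;> rfl

theorem one_block (A : Str → Str → Bool) (m : ℕ) (st : Str → Str)
    (hst : ∀ z, z.length < (8 * m + 1) * R m →
      st z = z ++ [decide (SB A m z true < SB A m z false)])
    (e : ℕ) (he : e < 8 * m + 1) (z : Str) (hz : z.length = e * R m) :
    (st^[R m] z).length = (e + 1) * R m ∧
      32 * NN A m (e + 1) (st^[R m] z) ≤ 29 * NN A m e z + 3 * GG A m := by
  obtain ⟨p, hp, hfp, hS⟩ := run_block A m st hst e he z hz (R m) le_rfl
  rw [hfp]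
  refine ⟨by rw [List.length_append, hz, hp]; ring, ?_⟩
  rw [Nat.sub_self] at hS
  have h0 : EE (fun s => NN A m (e + 1) (z ++ s)) 0 p = NN A m (e + 1) (z ++ p) := by
    unfold EE
    rw [sum_bsl_zero, List.append_nil]
  rw [h0] at hS
  have h1 := double A m e z hz
  have h2 : 2 ^ R m * (32 * NN A m (e + 1) (z ++ p)) ≤
      2 ^ R m * (29 * NN A m e z + 3 * GG A m) := by
    calc 2 ^ R m * (32 * NN A m (e + 1) (z ++ p))
        = 32 * (2 ^ R m * NN A m (e + 1) (z ++ p)) := by ring
      _ ≤ 32 * EE (fun s => NN A m (e + 1) (z ++ s)) (R m) [] := Nat.mul_le_mul_left _ hS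
      _ ≤ _ := h1
  exact Nat.le_of_mul_le_mul_left h2 (Nat.pow_pos (by norm_num))

theorem many_blocks (A : Str → Str → Bool) (m : ℕ) (st : Str → Str)
    (hst : ∀ z, z.length < (8 * m + 1) * R m →
      st z = z ++ [decide (SB A m z true < SB A m z false)]) (T : ℕ) (hT : T ≤ 8 * m + 1) :
    (st^[T * R m] []).length = T * R m ∧
      32 ^ T * NN A m T (st^[T * R m] []) ≤ 32 ^ T * GG A m + 29 ^ T * 2 ^ m := by
  induction T with
  | zero =>
    refine ⟨by simp, ?_⟩
    have h : NN A m 0 (st^[0 * R m] []) ≤ 2 ^ m := by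
      unfold NN
      rw [← card_bsl m]
      exact Finset.card_filter_le _ _
    simp only [pow_zero, one_mul]
    omega
  | succ T ih =>
    obtain ⟨hl, hc⟩ := ih (by omega)
    obtain ⟨h1, h2⟩ := one_block A m st hst T (by omega) _ hl
    have e : st^[(T + 1) * R m] [] = st^[R m] (st^[T * R m] []) := by
      rw [← Function.iterate_add_apply]
      congr 1
      ring_nf
    rw [e]
    refine ⟨h1, ?_⟩
    calc 32 ^ (T + 1) * NN A m (T + 1) (st^[R m] (st^[T * R m] []))
        = 32 ^ T * (32 * NN A m (T + 1) (st^[R m] (st^[T * R m] []))) := by ring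
      _ ≤ 32 ^ T * (29 * NN A m T (st^[T * R m] []) + 3 * GG A m) := Nat.mul_le_mul_left _ h2
      _ = 29 * (32 ^ T * NN A m T (st^[T * R m] [])) + 3 * (32 ^ T * GG A m) := by ring
      _ ≤ 29 * (32 ^ T * GG A m + 29 ^ T * 2 ^ m) + 3 * (32 ^ T * GG A m) :=
        Nat.add_le_add_right (Nat.mul_le_mul_left _ hc) _
      _ = 32 ^ (T + 1) * GG A m + 29 ^ (T + 1) * 2 ^ m := by ring

theorem num (m : ℕ) : 29 ^ (8 * m + 1) * 2 ^ m < 32 ^ (8 * m + 1) := by
  have h1 : 29 ^ (8 * m + 1) * 2 ^ m = 29 * (29 ^ 8 * 2) ^ m := by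
    rw [pow_succ, pow_mul, mul_pow]
    ring
  have h2 : 32 ^ (8 * m + 1) = 32 * (32 ^ 8) ^ m := by
    rw [pow_succ, pow_mul]
    ring
  have h3 : (29 ^ 8 * 2) ^ m ≤ (32 ^ 8) ^ m := Nat.pow_le_pow_left (by norm_num) m
  have h4 : 0 < (32 ^ 8) ^ m := Nat.pow_pos (by norm_num)
  rw [h1, h2]
  omega

end GreedyAux

theorem greedy (A : Str → Str → Bool) (m : ℕ) (st : Str → Str)
    (hst : ∀ z, z.length < (8 * m + 1) * R m →
      st z = z ++ [decide (SB A m z true < SB A m z false)]) :
    NN A m (8 * m + 1) (st^[(8 * m + 1) * R m] []) = GG A m := by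
  have h1 := (GreedyAux.many_blocks A m st hst (8 * m + 1) le_rfl).2
  have h2 := GreedyAux.num m
  have h3 := GreedyAux.GG_le A m (8 * m + 1) (st^[(8 * m + 1) * R m] [])
  have h4 : 32 ^ (8 * m + 1) * NN A m (8 * m + 1) (st^[(8 * m + 1) * R m] []) <
      32 ^ (8 * m + 1) * (GG A m + 1) := by
    calc _ ≤ _ := h1
      _ < 32 ^ (8 * m + 1) * GG A m + 32 ^ (8 * m + 1) := Nat.add_lt_add_left h2 _
      _ = 32 ^ (8 * m + 1) * (GG A m + 1) := by ring
  have h5 := Nat.lt_of_mul_lt_mul_left h4
  omega

end Pool.Agent.Lib.Pf91712s
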