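import Pool.Agent.Lib.Pf91712s.Defs
import Pool.Agent.Lib.Pf91712q.Mat

/-!
the matrix of the counting problem is in `P`. Model: Pf91712q/Mat.lean (`Psi_poly`, `BF_mem`;
`up`, `upN`, `idx`, `div_poly`, `lg_poly`, `allF_poly`, `blk_poly`, `rel_poly` are there, `PolyN.count` is in
Pa76659G/Pair.lean: `xorN` and `ones` are `PolyN.count` and a remainder: `n % 2 = n - 2 * (n / 2)`, `half_poly`;
`z.length % R m = z.length - R m * (z.length / R m)`).
-/

set_option autoImplicit false

namespace Pool.Agent.Lib.Pf91712s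

open Pool.Agent.Lib.Pa76659 (Str Lang Prog PO Halts accepts inp)
open Pool.Agent.Lib.Pa76659G (pr on1 fst snd)
open Pool.Agent.Lib.Pa76659G.PC
open Pool.Agent.Lib.Pf91712p (lg)
open Pool.Agent.Lib.Pf91712q

namespace MatAux

variable {α : Type*} {orc : α → Lang} {D : α → Prop} {ctx : List (α → Str)}

theorem mod_poly {f d : α → ℕ} (hf : PolyN orc D ctx f) (hd : PolyN orc D ctx d)
    (hd1 : ∀ a, D a → 1 ≤ d a) : PolyN orc D ctx (fun a => f a % d a) :=
  (hf.sub (hd.mul (div_poly hf hd hd1))).congr (fun _ _ => (Nat.mod_def _ _).symm)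

theorem odd_poly {f : α → ℕ} (hf : PolyN orc D ctx f) :
    PolyB orc D ctx (fun a => decide (f a % 2 = 1)) :=
  PolyB.natEq (mod_poly hf (PolyN.const 2) (fun _ _ => by norm_num)) (PolyN.const 1)

theorem xor_poly {φ ψ : α → Bool} (hφ : PolyB orc D ctx φ) (hψ : PolyB orc D ctx ψ) :
    PolyB orc D ctx (fun a => xor (φ a) (ψ a)) :=
  (PolyB.beq hφ hψ).not.congr (fun a _ => by cases φ a <;> cases ψ a <;> rfl)

theorem xorN_poly {n : α → ℕ} {φ : α × ℕ → Bool} (hn : PolyN orc D ctx n)
    (hφ : PolyB (fun p : α × ℕ => orc p.1) (fun p => D p.1 ∧ p.2 < n p.1)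
      (lift ctx ++ [fun p => una p.2]) φ) :
    PolyB orc D ctx (fun a => xorN (n a) (fun i => φ (a, i))) :=
  odd_poly (PolyN.count hn hφ)

theorem R_poly {m : α → ℕ} (hm : PolyN orc D ctx m) : PolyN orc D ctx (fun a => R (m a)) :=
  ((PolyN.const 4).mul hm).add (PolyN.const 3)

theorem hb_poly {m i : α → ℕ} {s v : α → Str} (hm : PolyN orc D ctx m) (hs : PolyC orc D ctx s)
    (hv : PolyC orc D ctx v) (hi : PolyN orc D ctx i) :
    PolyB orc D ctx (fun a => hb (m a) (s a) (v a) (i a)) :=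
  xor_poly
    (xorN_poly (φ := fun p : α × ℕ => (s p.1).getD (i p.1 + p.2) false && (v p.1).getD p.2 false) hm
      (PolyB.and (PolyB.getD (up (n := m) hs) (PolyN.add (upN (n := m) hi) (idx (n := m))))
        (PolyB.getD (up (n := m) hv) (idx (n := m)))))
    (PolyB.getD hs (PolyN.add ((PolyN.const 2).mul hm) hi))

theorem hball_poly {m j : α → ℕ} {s v : α → Str} (hm : PolyN orc D ctx m) (hs : PolyC orc D ctx s)
    (hv : PolyC orc D ctx v) (hj : PolyN orc D ctx j) :
    PolyB orc D ctx (fun a => decide (∀ i < j a, hb (m a) (s a) (v a) i = false)) :=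
  (PolyB.forall_lt (φ := fun p : α × ℕ => !(hb (m p.1) (s p.1) (v p.1) p.2)) hj
    (PolyB.not (hb_poly (upN (n := j) hm) (up (n := j) hs) (up (n := j) hv) (idx (n := j))))).congr
    (fun a _ => by
      rw [Bool.eq_iff_iff, decide_eq_true_eq, decide_eq_true_eq]
      refine forall_congr' fun i => forall_congr' fun _ => ?_
      show (!(hb (m a) (s a) (v a) i)) = true ↔ hb (m a) (s a) (v a) i = false
      rw [Bool.not_eq_true'])

theorem chi_poly {m : α → ℕ} {s v : α → Str} (hm : PolyN orc D ctx m) (hs : PolyC orc D ctx s)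
    (hv : PolyC orc D ctx v) : PolyB orc D ctx (fun a => chi (m a) (s a) (v a)) := by
  have hn : PolyN orc D ctx (fun a => m a + 2) := hm.add (PolyN.const 2)
  have h1 : PolyN (fun p : α × ℕ => orc p.1) (fun p => D p.1 ∧ p.2 < m p.1 + 2)
      (lift ctx ++ [fun p => una p.2]) (fun p => 3 * m p.1 + 1 + p.2) :=
    PolyN.add (PolyN.add (PolyN.mul (PolyN.const 3) (upN (n := fun a => m a + 2) hm))
      (PolyN.const 1)) (idx (n := fun a => m a + 2))
  exact xorN_poly (φ := fun p : α × ℕ => (s p.1).getD (3 * m p.1 + 1 + p.2) false &&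
      decide (∀ i < p.2, hb (m p.1) (s p.1) (v p.1) i = false)) hn
    (PolyB.and (PolyB.getD (up (n := fun a => m a + 2) hs) h1)
      (hball_poly (upN (n := fun a => m a + 2) hm) (up (n := fun a => m a + 2) hs)
        (up (n := fun a => m a + 2) hv) (idx (n := fun a => m a + 2))))

theorem blkS_poly {m l : α → ℕ} {z : α → Str} (hm : PolyN orc D ctx m) (hz : PolyC orc D ctx z)
    (hl : PolyN orc D ctx l) : PolyC orc D ctx (fun a => blk (m a) (z a) (l a)) :=
  PolyC.take (PolyC.drop hz (hl.mul (R_poly hm))) (R_poly hm)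

theorem chiT_poly {m t : α → ℕ} {z T v : α → Str} (hm : PolyN orc D ctx m)
    (ht : PolyN orc D ctx t) (hz : PolyC orc D ctx z) (hT : PolyC orc D ctx T)
    (hv : PolyC orc D ctx v) :
    PolyB orc D ctx (fun a => chiT (m a) (t a) (z a) (T a) (v a)) :=
  xorN_poly (φ := fun p : α × ℕ => (T p.1).getD p.2 false &&
      chi (m p.1) (blk (m p.1) (z p.1) p.2) (v p.1)) ht
    (PolyB.and (PolyB.getD (up (n := t) hT) (idx (n := t)))
      (chi_poly (upN (n := t) hm) (blkS_poly (upN (n := t) hm) (up (n := t) hz) (idx (n := t)))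
        (up (n := t) hv)))

theorem ones_poly {q : α → Str} (hq : PolyC orc D ctx q) :
    PolyN orc D ctx (fun a => ones (q a)) :=
  PolyN.count (n := fun a => (q a).length) (φ := fun p : α × ℕ => (q p.1).getD p.2 false)
    (PolyN.length hq)
    (PolyB.getD (up (n := fun a => (q a).length) hq) (idx (n := fun a => (q a).length)))

theorem allT_poly {s : α → Str} (hs : PolyC orc D ctx s) :
    PolyB orc D ctx (fun a => allT (s a)) :=
  PolyB.forall_lt (φ := fun p : α × ℕ => (s p.1).getD p.2 false) (PolyN.length hs)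
    (PolyB.getD (up (n := fun a => (s a).length) hs) (idx (n := fun a => (s a).length)))

theorem JJ_poly {m : α → ℕ} {z : α → Str} (hm : PolyN orc D ctx m) (hz : PolyC orc D ctx z) :
    PolyN orc D ctx (fun a => JJ (m a) (z a)) :=
  (((div_poly (PolyN.length hz) (R_poly hm) (fun _ _ => by unfold R; omega)).add
    (R_poly hm)).add hm).add (PolyN.const 2)

section

variable {O : Lang} {B : Lang}

theorem YT_poly (hB : B ∈ PO O) {x b z T u v : α → Str} {m t : α → ℕ}
    (hx : PolyC (fun _ => O) D ctx x) (hb : PolyC (fun _ => O) D ctx b)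
    (hm : PolyN (fun _ => O) D ctx m) (ht : PolyN (fun _ => O) D ctx t)
    (hz : PolyC (fun _ => O) D ctx z) (hT : PolyC (fun _ => O) D ctx T)
    (hu : PolyC (fun _ => O) D ctx u) (hv : PolyC (fun _ => O) D ctx v) :
    PolyB (fun _ => O) D ctx
      (fun a => YT (relA B (x a) (b a)) (m a) (t a) (z a) (T a) (u a) (v a)) :=
  PolyB.and (chiT_poly hm ht hz hT hv) (PolyB.not (rel_poly hB hx hb hu hv))

theorem core_poly (hB : B ∈ PO O) {x b z u T P1 q P3 sg pad : α → Str} {m J t : α → ℕ}
    {neg : α → Bool}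
    (hx : PolyC (fun _ => O) D ctx x) (hb : PolyC (fun _ => O) D ctx b)
    (hm : PolyN (fun _ => O) D ctx m) (hJ : PolyN (fun _ => O) D ctx J)
    (ht : PolyN (fun _ => O) D ctx t) (hz : PolyC (fun _ => O) D ctx z)
    (hneg : PolyB (fun _ => O) D ctx neg) (hu : PolyC (fun _ => O) D ctx u)
    (hT : PolyC (fun _ => O) D ctx T) (hP1 : PolyC (fun _ => O) D ctx P1)
    (hq : PolyC (fun _ => O) D ctx q) (hP3 : PolyC (fun _ => O) D ctx P3)
    (hsg : PolyC (fun _ => O) D ctx sg) (hpad : PolyC (fun _ => O) D ctx pad) :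
    PolyB (fun _ => O) D ctx (fun a => coreP (relA B (x a) (b a)) (m a) (J a) (t a) (z a) (neg a)
      (u a) (T a) (P1 a) (q a) (P3 a) (sg a) (pad a)) := by
  have ho := ones_poly hq
  have h1 := blk_poly (C := fun a bv => if bv.headD false then
      YT (relA B (x a) (b a)) (m a) (t a) (z a) (T a) (u a) bv.tail else allF bv)
      (m := fun a => m a + 1) (t := J) hm.succ hJ hP1 (by
    have hbv := PolyC.take (PolyC.drop (up (n := J) hP1)
      (PolyN.mul (idx (orc := fun _ : α => O) (D := D) (ctx := ctx) (n := J))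
        (upN (n := J) hm.succ))) (upN (n := J) hm.succ)
    have g1 := YT_poly hB (up (n := J) hx) (up (n := J) hb) (upN (n := J) hm) (upN (n := J) ht)
      (up (n := J) hz) (up (n := J) hT) (up (n := J) hu) (PolyC.tail hbv)
    have g2 := allF_poly hbv
    exact PolyB.ite (PolyB.headD hbv) (PolyC.mono g1 fun _ h => h.1)
      (PolyC.mono g2 fun _ h => h.1))
  have h2 := PolyB.le ho (PolyN.sub hJ (PolyN.const 1))
  have h3 := allF_poly (PolyC.drop hq ((PolyN.sub hJ (PolyN.const 1)).add ho))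
  have h4 := blk_poly (C := fun a v => YT (relA B (x a) (b a)) (m a) (t a) (z a) (T a) (u a) v)
      (m := m) (t := fun a => ones (q a)) hm ho hP3 (by
    have hv := PolyC.take (PolyC.drop (up (n := fun a => ones (q a)) hP3)
      (PolyN.mul (idx (orc := fun _ : α => O) (D := D) (ctx := ctx) (n := fun a => ones (q a)))
        (upN (n := fun a => ones (q a)) hm))) (upN (n := fun a => ones (q a)) hm)
    exact YT_poly hB (up (n := fun a => ones (q a)) hx) (up (n := fun a => ones (q a)) hb)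
      (upN (n := fun a => ones (q a)) hm) (upN (n := fun a => ones (q a)) ht)
      (up (n := fun a => ones (q a)) hz) (up (n := fun a => ones (q a)) hT)
      (up (n := fun a => ones (q a)) hu) hv)
  have h5 := PolyB.ite (xor_poly hneg (odd_poly ho))
    (PolyC.mono (PolyB.not (allT_poly hsg)) fun _ h => h.1)
    (PolyC.mono (allF_poly hsg) fun _ h => h.1)
  exact h1.and (h2.and (h3.and (h4.and (h5.and (allF_poly hpad)))))

theorem coreOK_poly (hB : B ∈ PO O) {x b z r : α → Str} {m J t : α → ℕ} {neg : α → Bool}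
    (hx : PolyC (fun _ => O) D ctx x) (hb : PolyC (fun _ => O) D ctx b)
    (hm : PolyN (fun _ => O) D ctx m) (hJ : PolyN (fun _ => O) D ctx J)
    (ht : PolyN (fun _ => O) D ctx t) (hz : PolyC (fun _ => O) D ctx z)
    (hneg : PolyB (fun _ => O) D ctx neg) (hr : PolyC (fun _ => O) D ctx r) :
    PolyB (fun _ => O) D ctx (fun a => coreOK (relA B (x a) (b a)) (m a) (J a) (t a) (z a) (neg a)
      (r a)) := by
  have r1 := PolyC.drop hr hm
  have r2 := PolyC.drop r1 ht
  have n3 := hJ.mul hm.succ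
  have r3 := PolyC.drop r2 n3
  have n4 := PolyN.sub ((PolyN.const 2).mul hJ) (PolyN.const 2)
  have r4 := PolyC.drop r3 n4
  have n5 := (PolyN.sub hJ (PolyN.const 1)).mul hm
  have r5 := PolyC.drop r4 n5
  exact core_poly hB hx hb hm hJ ht hz hneg (PolyC.take hr hm) (PolyC.take r1 ht)
    (PolyC.take r2 n3) (PolyC.take r3 n4) (PolyC.take r4 n5) (PolyC.take r5 hJ)
    (PolyC.drop r5 hJ)

theorem headCons_poly {φ : α → Bool} {t : α → Str} (hφ : PolyB orc D ctx φ)
    (ht : PolyC orc D ctx t) : PolyC orc D ctx (fun a => φ a :: t a) :=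
  (PolyC.append hφ ht).congr (fun _ _ => rfl)

theorem Psi_poly (hB : B ∈ PO O) {x b z g : α → Str} {m : α → ℕ} {md : α → Bool}
    (hx : PolyC (fun _ => O) D ctx x) (hb : PolyC (fun _ => O) D ctx b)
    (hm : PolyN (fun _ => O) D ctx m) (hmd : PolyB (fun _ => O) D ctx md)
    (hz : PolyC (fun _ => O) D ctx z) (hg : PolyC (fun _ => O) D ctx g) :
    PolyB (fun _ => O) D ctx (fun p => Pf91712s.Psi (relA B (x p) (b p)) (m p) (md p) (z p) (g p)) := by
  have hR := R_poly hm
  have hR1 : ∀ a, D a → 1 ≤ R (m a) := fun _ _ => by unfold R; omega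
  have hJ := JJ_poly hm hz
  have hh := PolyB.headD hg
  have hgt := PolyC.tail hg
  have htt := div_poly (PolyN.length hz) hR hR1
  have hmod := mod_poly (PolyN.length hz) hR hR1
  have hrem := PolyN.sub (PolyN.sub hR hmod) (PolyN.const 1)
  have h1 := coreOK_poly hB hx hb hm hJ htt hz (PolyB.const true) hgt
  have h2 := allF_poly (PolyC.drop hgt (PolyN.sub (hm.add htt) (PolyN.const 1)))
  have h3 := PolyB.ite hh (PolyC.mono h1 fun _ h => h.1) (PolyC.mono h2 fun _ h => h.1)
  have hw := PolyC.take hgt hR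
  have h4 := allF_poly (PolyC.drop hw hrem)
  have hz' := PolyC.append hz (headCons_poly hh (PolyC.take hw hrem))
  have h5 := coreOK_poly hB hx hb hm hJ htt.succ hz' (PolyB.not hh) (PolyC.drop hgt hR)
  have h6 := h4.and h5
  exact PolyB.ite hmd (PolyC.mono h3 fun _ h => h.1) (PolyC.mono h6 fun _ h => h.1)

end

end MatAux

theorem BF_mem {O B : Lang} (hB : B ∈ PO O) : Pf91712s.BF B ∈ PO O := by
  refine mem_PO ?_
  have hw : PolyC (fun _ : Str => O) (fun _ => True) [fun x => x] (fun w => w) :=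
    PolyC.var (by simp)
  have hx := PolyC.fst (PolyC.fst hw)
  have hmz := PolyC.snd (PolyC.fst hw)
  have hP := PolyC.fst (PolyC.snd hw)
  have hg := PolyC.snd (PolyC.snd hw)
  exact MatAux.Psi_poly hB hx (PolyC.fst hP) ((PolyN.length (PolyC.snd hP)).mul (lg_poly hx))
    (PolyB.headD hmz) (PolyC.tail hmz) hg

end Pool.Agent.Lib.Pf91712s
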