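import Pool.Agent.Lib.Pf91712s.Defs
import Pool.Agent.Lib.Pf91712q.Prg

/-!
The program of the algorithm. Model: Pf91712q/Prg.lean (`machine`, `q_poly`, `prog`); here
`advS h k = pr (on1 k) (on1 (h k))`, the index in the query is `JJ (h k * lg x) z - 1` (`div_poly`, `lg_poly` from
Pf91712q/Mat.lean).
-/

set_option autoImplicit false

namespace Pool.Agent.Lib.Pf91712s

open Pool.Agent.Lib.Pa76659 (Str Lang PO Prog Halts accepts inp)
open Pool.Agent.Lib.Pa76659G (pr on1 fst snd)
open Pool.Agent.Lib.Pa76659G.PC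
open Pool.Agent.Lib.Pf91712 (bitsOf)
open Pool.Agent.Lib.Pf91712p (lg)

open Pool.Agent.Lib.Pf91712q (machine lg_poly div_poly)

namespace PrgAux

/-- the query in terms of numbers -/
def qraw (x : Str) (k hh : ℕ) (md : Bool) (z : Str) : Str :=
  on1 k ++ false :: (on1 (JJ (hh * lg x) z - 1) ++ false :: pr x (md :: z))

theorem R_poly {α : Type*} {orc : α → Lang} {D : α → Prop} {ctx : List (α → Str)} {m : α → ℕ}
    (hm : PolyN orc D ctx m) : PolyN orc D ctx (fun a => R (m a)) :=
  ((PolyN.const 4).mul hm).add (PolyN.const 3)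

theorem JJ_poly {α : Type*} {orc : α → Lang} {D : α → Prop} {ctx : List (α → Str)} {m : α → ℕ}
    {z : α → Str} (hm : PolyN orc D ctx m) (hz : PolyC orc D ctx z) :
    PolyN orc D ctx (fun a => JJ (m a) (z a)) :=
  (((div_poly (PolyN.length hz) (R_poly hm) (fun a _ => by show 1 ≤ 4 * m a + 3; omega)).add
    (R_poly hm)).add hm).add (PolyN.const 2)

theorem q_poly {α : Type*} {orc : α → Lang} {D : α → Prop} {ctx : List (α → Str)}
    {x z : α → Str} {k hh : α → ℕ} (md : Bool)
    (hx : PolyC orc D ctx x) (hk : PolyN orc D ctx k) (hhh : PolyN orc D ctx hh)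
    (hz : PolyC orc D ctx z) :
    PolyC orc D ctx (fun a => qraw (x a) (k a) (hh a) md (z a)) := by
  have hy : PolyC orc D ctx (fun a => pr (x a) (md :: z a)) := PolyC.pr hx (PolyC.cons md hz)
  have hN : PolyN orc D ctx (fun a => JJ (hh a * lg (x a)) (z a) - 1) :=
    (JJ_poly (hhh.mul (lg_poly hx)) hz).sub (PolyN.const 1)
  exact PolyC.append hk (PolyC.cons false (PolyC.append hN (PolyC.cons false hy)))

theorem stp_length (F : Str → ℕ → ℕ) (h : ℕ → ℕ) (x : Str) (k : ℕ) (i : ℕ) :
    ((stp F h x k)^[i] []).length = i := by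
  induction i with
  | zero => rfl
  | succ i ih => rw [Function.iterate_succ_apply', stp, List.length_append, ih]; rfl

end PrgAux

open PrgAux

theorem prog (F : Str → ℕ → ℕ) (h : ℕ → ℕ) : ∃ (M : Prog) (p : Polynomial ℕ), ∀ x k,
    Halts (bitsOf F k) M (inp (pr x (advS h k))) (p.eval (pr x (advS h k)).length) ∧
    accepts (bitsOf F k) M (inp (pr x (advS h k))) (p.eval (pr x (advS h k)).length) =
      bitsOf F k (qF h x k true ((stp F h x k)^[WW h x k] [])) := by
  let orc : Str × ℕ → Lang := fun a => bitsOf F a.2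
  let w : Str × ℕ → Str := fun a => pr a.1 (advS h a.2)
  have hw : PolyC orc (fun _ => True) [w] w := PolyC.var (by simp)
  have hx : PolyC orc (fun _ => True) [w] (fun a => a.1) :=
    (PolyC.fst hw).congr (fun a _ => by simp [w])
  have hs : PolyC orc (fun _ => True) [w] (fun a => advS h a.2) :=
    (PolyC.snd hw).congr (fun a _ => by simp [w])
  have hk : PolyN orc (fun _ => True) [w] (fun a => a.2) :=
    (PolyC.fst hs).congr (fun a _ => by
      simp [advS, on1, una])
  have hh : PolyN orc (fun _ => True) [w] (fun a => h a.2) :=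
    (PolyC.snd hs).congr (fun a _ => by
      simp [advS, on1, una])
  have hm : PolyN orc (fun _ => True) [w] (fun a => h a.2 * lg a.1) := hh.mul (lg_poly hx)
  have hW : PolyN orc (fun _ => True) [w] (fun a => WW h a.1 a.2) :=
    (((PolyN.const 8).mul hm).add (PolyN.const 1)).mul (R_poly hm)
  have hL : ∀ {t' : Str × ℕ → Str}, PolyC orc (fun _ => True) [w] t' →
      PolyC (fun p : (Str × ℕ) × Str => orc p.1) (fun p => True)
        (lift [w] ++ [fun p => p.2]) (fun p => t' p.1) :=
    fun ht' => (PolyC.lift ht' (fun _ _ => trivial)).weakenRight _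
  have hg : PolyC (fun p : (Str × ℕ) × Str => orc p.1) (fun p => True)
      (lift [w] ++ [fun p => p.2]) (fun p => stp F h p.1.1 p.1.2 p.2) := by
    have hz : PolyC (fun p : (Str × ℕ) × Str => orc p.1) (fun p => True)
      (lift [w] ++ [fun p => p.2]) (fun p => p.2) := PolyC.var (by simp)
    have hq := PolyC.query (q_poly false (hL hx) (hL hk) (hL hh) hz)
    exact PolyC.append hz hq
  have hi : PolyC orc (fun _ => True) [w]
      (fun a => (stp F h a.1 a.2)^[WW h a.1 a.2] []) := by
    obtain ⟨pW, hpW⟩ := PolyC.length_le hW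
    refine PolyC.iter (g := fun a z => stp F h a.1 a.2 z) (t := fun _ => []) hg PolyC.nil hW
      ⟨pW, fun a ha k hk => ?_⟩
    have h1 := hpW a ha
    rw [un_length] at h1
    show ((stp F h a.1 a.2)^[k] []).length ≤ _
    rw [stp_length]
    exact hk.trans h1
  have hfin : PolyB orc (fun _ => True) [w] (fun a => bitsOf F a.2
      (qF h a.1 a.2 true ((stp F h a.1 a.2)^[WW h a.1 a.2] []))) :=
    PolyC.query (q_poly true hx hk hh hi)
  obtain ⟨M, p, hM⟩ := machine hfin
  exact ⟨M, p, fun x k => hM (x, k)⟩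

end Pool.Agent.Lib.Pf91712s
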