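import Pool.Agent.Lib.Pf91712s.Bits
import Pool.Agent.Lib.Pf91712s.Greedy
import Pool.Agent.Lib.Pf91712s.Mat
import Pool.Agent.Lib.Pf91712s.Prg
import Pool.Agent.Lib.Pf91712q.Fin

/-!
Every problem with two quantifier blocks is fpt Turing reducible to a counting problem with
`H(k) (log n)²` guess bits, relative to every oracle.
-/

set_option autoImplicit false

namespace Pool.Agent.Lib.Pf91712s

open Pool.Agent.Lib.Pa76659 (Str Lang PO Prog Halts accepts inp)
open Pool.Agent.Lib.Pa76659G (pr on1 fst snd)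
open Pool.Agent.Lib.Pa76659G.PC
open Pool.Agent.Lib.Pf91712 (bitsOf unary)
open Pool.Agent.Lib.Pf91712p (lg Alt AltProb AltClass)
open Pool.Agent.Lib.Pf91712q (relA bsl mem_bsl unary_on1 FptTuring)

theorem BF_eq (B : Lang) (h : ℕ → ℕ) (π : ℕ → Str) (x : Str) (k : ℕ) (md : Bool) (z g : Str) :
    BF B (pr (pr x (md :: z)) (pr (advF h π k) g)) =
      Psi (relA B x (π k)) (h k * lg x) md z g := by
  simp [BF, advF, on1]

theorem bits_eq (B : Lang) (h : ℕ → ℕ) (π : ℕ → Str) (x : Str) (k : ℕ) (md : Bool) (z : Str) :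
    bitsOf (FF h π B) k (qF h x k md z) =
      (Nat.card {g : Str // g.length = hF h k * lg (pr x (md :: z)) ^ 2 ∧
        Psi (relA B x (π k)) (h k * lg x) md z g = true}).testBit (JJ (h k * lg x) z - 1) := by
  rw [bitsOf, qF, unary_on1, unary_on1]
  simp only [le_refl, decide_true, Bool.true_and, FF, BF_eq]

theorem stp_length (F : Str → ℕ → ℕ) (h : ℕ → ℕ) (x : Str) (k : ℕ) (i : ℕ) :
    ((stp F h x k)^[i] []).length = i := by
  induction i with
  | zero => rfl
  | succ i ih => rw [Function.iterate_succ_apply', stp, List.length_append, ih]; rfl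

theorem hN_le (h : ℕ → ℕ) (x : Str) (k : ℕ) (md : Bool) (z : Str)
    (hz : z.length ≤ (8 * (h k * lg x) + 1) * R (h k * lg x)) :
    N0 (h k * lg x) z ≤ hF h k * lg (pr x (md :: z)) ^ 2 := by
  obtain ⟨m, hm⟩ : ∃ m, m = h k * lg x := ⟨_, rfl⟩
  rw [← hm] at hz ⊢
  have hl : (pr x (md :: z)).length = 2 * x.length + (z.length + 1) + 1 := by
    rw [Pool.Agent.Lib.Pa76659G.pr_length]
    simp only [List.length_cons]
    omega
  have h1 : lg x ≤ lg (pr x (md :: z)) := Nat.log_mono_right (by rw [hl]; omega)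
  have h2 : 1 ≤ lg (pr x (md :: z)) := by
    rw [lg, Nat.le_log_iff_pow_le (by norm_num) (by rw [hl]; omega), hl]
    omega
  have hR : 0 < R m := by unfold R; omega
  have ht : z.length / R m ≤ 8 * m + 1 := by
    rw [Nat.div_le_iff_le_mul_add_pred hR]
    have : (8 * m + 1) * R m = R m * (8 * m + 1) := Nat.mul_comm _ _
    omega
  have hM : m + 1 ≤ (h k + 1) * lg (pr x (md :: z)) := by
    have h3 : h k * lg x ≤ h k * lg (pr x (md :: z)) := Nat.mul_le_mul_left _ h1
    have h4 : (h k + 1) * lg (pr x (md :: z)) = h k * lg (pr x (md :: z)) + lg (pr x (md :: z)) := by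
      ring
    omega
  have h5 : 100 * ((m + 1) * (m + 1)) ≤ hF h k * lg (pr x (md :: z)) ^ 2 := by
    have h6 := Nat.mul_le_mul hM hM
    calc 100 * ((m + 1) * (m + 1)) ≤ 100 * ((h k + 1) * lg (pr x (md :: z)) *
          ((h k + 1) * lg (pr x (md :: z)))) := Nat.mul_le_mul_left _ h6
      _ = _ := by rw [hF]; ring
  refine le_trans ?_ h5
  have e4 : R m = 4 * m + 3 := rfl
  have hJ : JJ m z ≤ 13 * m + 6 := by
    unfold JJ
    generalize z.length / R m = q at *
    omega
  obtain ⟨J, hJe⟩ : ∃ J, J = JJ m z := ⟨_, rfl⟩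
  unfold N0
  rw [← hJe] at hJ ⊢
  have e1 : J * (m + 1) ≤ (13 * m + 6) * (m + 1) := Nat.mul_le_mul_right _ hJ
  have e2 : (J - 1) * m ≤ (13 * m + 6) * m := Nat.mul_le_mul_right _ (by omega)
  have e3 : 2 * J - 2 ≤ 2 * (13 * m + 6) := by omega
  have e5 : (13 * m + 6) * (m + 1) = 13 * (m * m) + 19 * m + 6 := by ring
  have e6 : (13 * m + 6) * m = 13 * (m * m) + 6 * m := by ring
  have e7 : 100 * ((m + 1) * (m + 1)) = 100 * (m * m) + 200 * m + 100 := by ring
  rw [e7]
  rw [e5] at e1
  rw [e6] at e2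
  generalize z.length / R m = q at *
  generalize m * m = M2 at *
  generalize J * (m + 1) = X1 at *
  generalize (J - 1) * m = X2 at *
  omega

theorem main (O : Lang) (L : Str → ℕ → Prop) (hL : L ∈ AltClass O 2) :
    ∃ F ∈ SharpC (fun m => m ^ 2) O, FptTuring F L (fun x k => ¬ L x k) := by
  obtain ⟨h, π, B, hh, hπ, hB, hLe⟩ := hL
  have hon : ∀ {f : ℕ → ℕ}, Computable f → Computable (fun k => on1 (f k)) := fun hf =>
    Pool.Agent.Lib.Pf91712p.computable_on1.comp hf
  have hpr : ∀ {f g : ℕ → Str}, Computable f → Computable g → Computable (fun k => pr (f k) (g k)) :=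
    fun hf hg => Pool.Agent.Lib.Pf91712p.PosAAux.primrec_pr.to_comp.comp hf hg
  have hadv : Computable (advF h π) := hpr hπ (hon hh)
  have hhF : Computable (hF h) := by
    have h1 : Computable (fun k => (h k + 1) * (h k + 1)) :=
      Primrec.nat_mul.to_comp.comp (Primrec.succ.to_comp.comp hh) (Primrec.succ.to_comp.comp hh)
    exact Primrec.nat_mul.to_comp.comp (Computable.const 100) h1
  refine ⟨FF h π B, ⟨hF h, advF h π, BF B, hhF, hadv, BF_mem hB, fun x k => rfl⟩, ?_⟩
  obtain ⟨M, p, hM⟩ := prog (FF h π B) h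
  refine ⟨M, p, fun k => k, advS h, Computable.id, hpr (hon Computable.id) (hon hh),
    fun x k => ⟨(hM x k).1, ?_⟩⟩
  rw [(hM x k).2]
  obtain ⟨m, hm⟩ : ∃ m, m = h k * lg x := ⟨_, rfl⟩
  obtain ⟨A, hA⟩ : ∃ A, A = relA B x (π k) := ⟨_, rfl⟩
  -- the answer
  have hlen : ((stp (FF h π B) h x k)^[WW h x k] []).length = (8 * m + 1) * R m := by
    rw [stp_length, WW, hm]
  have hR : 0 < R m := by unfold R; omega
  have hgr : NN A m (8 * m + 1) ((stp (FF h π B) h x k)^[WW h x k] []) = GG A m := by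
    have hW : WW h x k = (8 * m + 1) * R m := by rw [WW, hm]
    rw [hW]
    refine greedy A m (stp (FF h π B) h x k) (fun z hz => ?_)
    rw [stp, bits_eq, ← hm, ← hA, bit_false A m _ z ?_]
    rw [hm]
    exact hN_le h x k false z (by rw [← hm]; exact hz.le)
  have hans : bitsOf (FF h π B) k (qF h x k true ((stp (FF h π B) h x k)^[WW h x k] [])) =
      decide (0 < GG A m) := by
    rw [bits_eq, ← hm, ← hA, bit_true A m _ _ ?_ ?_]
    · have hdiv : ((stp (FF h π B) h x k)^[WW h x k] []).length / R m = 8 * m + 1 := by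
        rw [hlen]
        exact Nat.mul_div_cancel _ hR
      rw [hdiv, hgr]
    · rw [hm]
      refine hN_le h x k true _ ?_
      rw [← hm, hlen]
    · rw [hlen]
      exact Nat.le_mul_of_pos_left _ (by omega)
  rw [hans]
  have key : L x k ↔ 0 < GG A m := by
    rw [hLe x k]
    unfold AltProb Alt
    rw [GG, Finset.card_pos]
    constructor
    · rintro ⟨u, hu, hv⟩
      refine ⟨u, Finset.mem_filter.2 ⟨mem_bsl.2 (by rw [hu, hm]), fun v hv' => ?_⟩⟩
      have h1 := hv v (by rw [mem_bsl] at hv'; rw [hv', hm])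
      rw [hA]
      simpa [relA, Alt] using h1
    · rintro ⟨u, hu⟩
      rw [Finset.mem_filter, mem_bsl] at hu
      refine ⟨u, by rw [hu.1, hm], fun v hv => ?_⟩
      have h1 := hu.2 v (mem_bsl.2 (by rw [hv, hm]))
      rw [hA] at h1
      simpa [relA, Alt] using h1
  constructor
  · intro hx
    rw [decide_eq_true_eq]
    exact key.1 hx
  · intro hx
    rw [decide_eq_false_iff_not]
    exact fun h' => hx (key.2 h')

end Pool.Agent.Lib.Pf91712s
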