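import Pool.Agent.Lib.Pf91712s.Defs
import Pool.Agent.Lib.Pf91712q.Cnt

/-!
The Hankel hash `hb m s v i = (⊕_{j<m} s_{i+j} v_j) ⊕ s_{2m+i}`, `i ≤ m`, is pairwise independent.
-/

set_option autoImplicit false

namespace Pool.Agent.Lib.Pf91712s

open Pool.Agent.Lib.Pa76659 (Str Lang Prog PO Halts accepts inp)
open Pool.Agent.Lib.Pf91712q (allF blkOK bsl mem_bsl card_bsl natCard_eq split_bsl cnt_blk)

namespace HashAAux

theorem xorN_zero (P : ℕ → Bool) : xorN 0 P = false := by simp [xorN]

theorem xorN_succ (n : ℕ) (P : ℕ → Bool) : xorN (n + 1) P = xor (xorN n P) (P n) := by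
  unfold xorN
  rw [List.range_succ, List.filter_append, List.length_append]
  cases h : P n
  · simp [h]
  · simp only [h, List.filter_cons, List.filter_nil, if_true, List.length_cons, List.length_nil,
      Nat.zero_add, Bool.xor_true]
    rw [← decide_not, decide_eq_decide]
    omega

theorem xorN_congr {n : ℕ} {P Q : ℕ → Bool} (h : ∀ i < n, P i = Q i) : xorN n P = xorN n Q := by
  induction n with
  | zero => rw [xorN_zero, xorN_zero]
  | succ n ih =>
    rw [xorN_succ, xorN_succ, ih (fun i hi => h i (Nat.lt_succ_of_lt hi)), h n (Nat.lt_succ_self n)]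

theorem xorN_xor (n : ℕ) (P Q : ℕ → Bool) :
    xorN n (fun i => xor (P i) (Q i)) = xor (xorN n P) (xorN n Q) := by
  induction n with
  | zero => simp [xorN_zero]
  | succ n ih =>
    rw [xorN_succ, xorN_succ, xorN_succ, ih]
    cases xorN n P <;> cases xorN n Q <;> cases P n <;> cases Q n <;> rfl

theorem xorN_false {n : ℕ} {P : ℕ → Bool} (h : ∀ i < n, P i = false) : xorN n P = false := by
  induction n with
  | zero => rw [xorN_zero]
  | succ n ih =>
    rw [xorN_succ, ih (fun i hi => h i (Nat.lt_succ_of_lt hi)), h n (Nat.lt_succ_self n)]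
    rfl

theorem xorN_single {n i0 : ℕ} {P : ℕ → Bool} (hi : i0 < n) (h0 : P i0 = true)
    (h : ∀ i < n, i ≠ i0 → P i = false) : xorN n P = true := by
  induction n with
  | zero => exact absurd hi (Nat.not_lt_zero _)
  | succ n ih =>
    rw [xorN_succ]
    by_cases hn : i0 = n
    · subst hn
      rw [xorN_false (fun i hi' => h i (Nat.lt_succ_of_lt hi') (Nat.ne_of_lt hi')), h0]
      rfl
    · rw [ih (by omega) (fun i hi' hne => h i (Nat.lt_succ_of_lt hi') hne),
        h n (Nat.lt_succ_self n) (Ne.symm hn)]
      rfl

/-- the string `s` (of length `n`) changed at the positions `i` with `w i` -/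
def xr (n : ℕ) (w : ℕ → Bool) (s : Str) : Str :=
  (List.range n).map (fun i => xor (s.getD i false) (w i))

theorem xr_length (n : ℕ) (w : ℕ → Bool) (s : Str) : (xr n w s).length = n := by simp [xr]

theorem xr_getD {n i : ℕ} (w : ℕ → Bool) (s : Str) (h : i < n) :
    (xr n w s).getD i false = xor (s.getD i false) (w i) := by
  rw [xr, List.getD_eq_getElem?_getD, List.getElem?_map, List.getElem?_range h]
  rfl

theorem xr_xr {n : ℕ} (w : ℕ → Bool) {s : Str} (h : s.length = n) : xr n w (xr n w s) = s := by
  refine List.ext_getElem (by rw [xr_length, h]) (fun i h1 h2 => ?_)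
  have hi : i < n := by rwa [xr_length] at h1
  have e1 : (xr n w (xr n w s))[i] = (xr n w (xr n w s)).getD i false := by
    rw [List.getD_eq_getElem?_getD, List.getElem?_eq_getElem h1, Option.getD_some]
  have e2 : s[i] = s.getD i false := by
    rw [List.getD_eq_getElem?_getD, List.getElem?_eq_getElem h2, Option.getD_some]
  rw [e1, e2, xr_getD _ _ hi, xr_getD _ _ hi, Bool.xor_assoc, Bool.xor_self, Bool.xor_false]

theorem half (X : Finset Str) (φ : Str → Str) (P : Str → Bool) (hX : ∀ s ∈ X, φ s ∈ X)
    (hφ : ∀ s ∈ X, φ (φ s) = s) (hP : ∀ s ∈ X, P (φ s) = !(P s)) :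
    2 * (X.filter (fun s => P s = false)).card = X.card := by
  have h1 : (X.filter (fun s => P s = false)).card = (X.filter (fun s => ¬ P s = false)).card := by
    refine Finset.card_bij (fun s _ => φ s) ?_ ?_ ?_
    · intro s hs
      rw [Finset.mem_filter] at hs ⊢
      exact ⟨hX s hs.1, by rw [hP s hs.1, hs.2]; simp⟩
    · intro s hs s' hs' h
      rw [Finset.mem_filter] at hs hs'
      rw [← hφ s hs.1, ← hφ s' hs'.1, h]
    · intro s hs
      rw [Finset.mem_filter] at hs
      refine ⟨φ s, ?_, hφ s hs.1⟩
      rw [Finset.mem_filter]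
      refine ⟨hX s hs.1, ?_⟩
      rw [hP s hs.1]
      have := hs.2
      simpa using this
  have h2 := Finset.card_filter_add_card_filter_not (s := X) (fun s => P s = false)
  omega

/-- the change of the hash value -/
def hw (m : ℕ) (w : ℕ → Bool) (v : Str) (i : ℕ) : Bool :=
  xor (xorN m (fun j => w (i + j) && v.getD j false)) (w (2 * m + i))

theorem hb_xr {m i : ℕ} (w : ℕ → Bool) (s v : Str) (hi : i ≤ m) :
    hb m (xr (3 * m + 1) w s) v i = xor (hb m s v i) (hw m w v i) := by
  unfold hb hw
  have h1 : xorN m (fun j => (xr (3 * m + 1) w s).getD (i + j) false && v.getD j false) =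
      xor (xorN m (fun j => s.getD (i + j) false && v.getD j false))
        (xorN m (fun j => w (i + j) && v.getD j false)) := by
    rw [← xorN_xor]
    refine xorN_congr (fun j hj => ?_)
    rw [xr_getD _ _ (by omega)]
    cases s.getD (i + j) false <;> cases w (i + j) <;> cases v.getD j false <;> rfl
  rw [h1, xr_getD _ _ (by omega)]
  generalize xorN m (fun j => s.getD (i + j) false && v.getD j false) = a
  generalize xorN m (fun j => w (i + j) && v.getD j false) = b
  cases a <;> cases b <;> cases s.getD (2 * m + i) false <;> cases w (2 * m + i) <;> rfl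

/-- the change of one bit of the shift -/
def w1 (m j : ℕ) : ℕ → Bool := fun k => decide (k = 2 * m + j)

theorem hw_w1 {m i j : ℕ} (v : Str) (hi : i ≤ m) : hw m (w1 m j) v i = decide (i = j) := by
  unfold hw w1
  rw [xorN_false, Bool.false_xor, decide_eq_decide]
  · omega
  · intro l hl
    have : ¬ (i + l = 2 * m + j) := by omega
    simp [this]

/-- the change of a bit of the matrix and of the shift which keeps the hash values of `v` -/
def w2 (m p : ℕ) (v : Str) : ℕ → Bool := fun k =>
  if k < 2 * m then decide (k = p) else xorN m (fun l => decide (k - 2 * m + l = p) && v.getD l false)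

theorem w2_lt {m p k : ℕ} (v : Str) (h : k < 2 * m) : w2 m p v k = decide (k = p) := by
  rw [w2, if_pos h]

theorem w2_ge {m p i : ℕ} (v : Str) :
    w2 m p v (2 * m + i) = xorN m (fun l => decide (i + l = p) && v.getD l false) := by
  rw [w2, if_neg (by omega)]
  have : 2 * m + i - 2 * m = i := by omega
  rw [this]

theorem hw_w2 {m i p : ℕ} (v v' : Str) (hi : i ≤ m) : hw m (w2 m p v) v' i =
    xorN m (fun l => decide (i + l = p) && xor (v'.getD l false) (v.getD l false)) := by
  unfold hw
  rw [w2_ge]
  have h1 : xorN m (fun j => w2 m p v (i + j) && v'.getD j false) =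
      xorN m (fun l => decide (i + l = p) && v'.getD l false) :=
    xorN_congr (fun j hj => by rw [w2_lt v (by omega)])
  rw [h1, ← xorN_xor]
  refine xorN_congr (fun l _ => ?_)
  cases decide (i + l = p) <;> cases v'.getD l false <;> cases v.getD l false <;> rfl

theorem exists_last {m : ℕ} {v v' : Str} (hv : v.length = m) (hv' : v'.length = m) (hne : v ≠ v') :
    ∃ l0 < m, xor (v'.getD l0 false) (v.getD l0 false) = true ∧
      ∀ l, l0 < l → xor (v'.getD l false) (v.getD l false) = false := by
  classical
  have hex : ((Finset.range m).filter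
      (fun l => xor (v'.getD l false) (v.getD l false) = true)).Nonempty := by
    by_contra hcon
    rw [Finset.not_nonempty_iff_eq_empty] at hcon
    refine hne (List.ext_getElem (by rw [hv, hv']) (fun i h1 h2 => ?_))
    have e1 : v[i] = v.getD i false := by
      rw [List.getD_eq_getElem?_getD, List.getElem?_eq_getElem h1, Option.getD_some]
    have e2 : v'[i] = v'.getD i false := by
      rw [List.getD_eq_getElem?_getD, List.getElem?_eq_getElem h2, Option.getD_some]
    rw [e1, e2]
    by_contra hc
    have : i ∈ (Finset.range m).filter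
        (fun l => xor (v'.getD l false) (v.getD l false) = true) := by
      rw [Finset.mem_filter, Finset.mem_range]
      refine ⟨by omega, ?_⟩
      revert hc
      cases v'.getD i false <;> cases v.getD i false <;> simp
    rw [hcon] at this
    exact absurd this (Finset.notMem_empty _)
  refine ⟨Finset.max' _ hex, ?_, ?_, ?_⟩
  · have := Finset.max'_mem _ hex
    rw [Finset.mem_filter, Finset.mem_range] at this
    exact this.1
  · have := Finset.max'_mem _ hex
    rw [Finset.mem_filter] at this
    exact this.2
  · intro l hl
    by_cases hlm : l < m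
    · by_contra hc
      have hmem : l ∈ (Finset.range m).filter
          (fun l => xor (v'.getD l false) (v.getD l false) = true) := by
        rw [Finset.mem_filter, Finset.mem_range]
        exact ⟨hlm, by simpa using hc⟩
      exact absurd (Finset.le_max' _ l hmem) (by omega)
    · rw [List.getD_eq_getElem?_getD, List.getD_eq_getElem?_getD,
        List.getElem?_eq_none (by omega), List.getElem?_eq_none (by omega)]
      rfl

end HashAAux

open HashAAux

theorem hash1 (m j : ℕ) (hj : j ≤ m + 1) (v : Str) (hv : v ∈ bsl m) :
    2 ^ j * ((bsl (3 * m + 1)).filter (fun s => ∀ i < j, hb m s v i = false)).card =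
      2 ^ (3 * m + 1) := by
  classical
  induction j with
  | zero => simp [card_bsl]
  | succ j ih =>
    rw [← ih (by omega)]
    have h := half ((bsl (3 * m + 1)).filter (fun s => ∀ i < j, hb m s v i = false))
      (xr (3 * m + 1) (w1 m j)) (fun s => hb m s v j) ?_ ?_ ?_
    · rw [← h, Finset.filter_filter, pow_succ]
      have hc : (bsl (3 * m + 1)).filter (fun s => ∀ i < j + 1, hb m s v i = false) =
          (bsl (3 * m + 1)).filter
            (fun s => (∀ i < j, hb m s v i = false) ∧ hb m s v j = false) := by
        refine Finset.filter_congr (fun s _ => ?_)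
        constructor
        · intro h
          exact ⟨fun i hi => h i (by omega), h j (by omega)⟩
        · rintro ⟨h1, h2⟩ i hi
          rcases Nat.lt_succ_iff_lt_or_eq.1 hi with h | h
          · exact h1 i h
          · rw [h]; exact h2
      rw [hc]
      ring
    · intro s hs
      rw [Finset.mem_filter, mem_bsl] at hs ⊢
      refine ⟨xr_length _ _ _, fun i hi => ?_⟩
      rw [hb_xr _ _ _ (by omega), hs.2 i hi, hw_w1 _ (by omega)]
      have : ¬ i = j := by omega
      simp [this]
    · intro s hs
      rw [Finset.mem_filter, mem_bsl] at hs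
      exact xr_xr _ hs.1
    · intro s _
      show hb m (xr (3 * m + 1) (w1 m j) s) v j = !(hb m s v j)
      rw [hb_xr _ _ _ (by omega), hw_w1 _ (by omega)]
      simp

theorem hash2 (m j : ℕ) (hj : j ≤ m + 1) (v v' : Str) (hv : v ∈ bsl m) (hv' : v' ∈ bsl m)
    (hne : v ≠ v') :
    4 ^ j * ((bsl (3 * m + 1)).filter (fun s => (∀ i < j, hb m s v i = false) ∧
      ∀ i < j, hb m s v' i = false)).card = 2 ^ (3 * m + 1) := by
  classical
  rw [mem_bsl] at hv hv'
  obtain ⟨l0, hl0, hd0, hd1⟩ := exists_last hv hv' hne
  induction j with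
  | zero => simp [card_bsl]
  | succ j ih =>
    rw [← ih (by omega)]
    set G := (bsl (3 * m + 1)).filter (fun s => (∀ i < j, hb m s v i = false) ∧
      ∀ i < j, hb m s v' i = false) with hG
    have hmem : ∀ s, s ∈ G ↔ s.length = 3 * m + 1 ∧ (∀ i < j, hb m s v i = false) ∧
        ∀ i < j, hb m s v' i = false := by
      intro s
      rw [hG, Finset.mem_filter, mem_bsl]
    have h1 := half G (xr (3 * m + 1) (w1 m j)) (fun s => hb m s v j) ?_ ?_ ?_
    · have h2 := half (G.filter (fun s => hb m s v j = false)) (xr (3 * m + 1) (w2 m (j + l0) v))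
        (fun s => hb m s v' j) ?_ ?_ ?_
      · have hc : (bsl (3 * m + 1)).filter (fun s => (∀ i < j + 1, hb m s v i = false) ∧
            ∀ i < j + 1, hb m s v' i = false) =
            (G.filter (fun s => hb m s v j = false)).filter (fun s => hb m s v' j = false) := by
          rw [hG, Finset.filter_filter, Finset.filter_filter]
          refine Finset.filter_congr (fun s _ => ?_)
          constructor
          · rintro ⟨h, h'⟩
            exact ⟨⟨fun i hi => h i (by omega), fun i hi => h' i (by omega)⟩, h j (by omega),
              h' j (by omega)⟩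
          · rintro ⟨⟨a, b⟩, c, d⟩
            refine ⟨fun i hi => ?_, fun i hi => ?_⟩
            · rcases Nat.lt_succ_iff_lt_or_eq.1 hi with h | h
              · exact a i h
              · rw [h]; exact c
            · rcases Nat.lt_succ_iff_lt_or_eq.1 hi with h | h
              · exact b i h
              · rw [h]; exact d
        rw [hc, ← h1, ← h2, pow_succ]
        ring
      · intro s hs
        rw [Finset.mem_filter, hmem] at hs ⊢
        obtain ⟨⟨hs1, hs2, hs3⟩, hs4⟩ := hs
        have hvz : ∀ i ≤ m, hw m (w2 m (j + l0) v) v i = false := by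
          intro i hi
          rw [hw_w2 _ _ hi]
          exact xorN_false (fun l _ => by simp)
        refine ⟨⟨xr_length _ _ _, fun i hi => ?_, fun i hi => ?_⟩, ?_⟩
        · rw [hb_xr _ _ _ (by omega), hs2 i hi, hvz i (by omega)]
          rfl
        · rw [hb_xr _ _ _ (by omega), hs3 i hi, hw_w2 _ _ (by omega), xorN_false]
          · rfl
          · intro l _
            by_cases hl : i + l = j + l0
            · rw [hd1 l (by omega), Bool.and_false]
            · simp [hl]
        · rw [hb_xr _ _ _ (by omega), hs4, hvz j (by omega)]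
          rfl
      · intro s hs
        rw [Finset.mem_filter, hmem] at hs
        exact xr_xr _ hs.1.1
      · intro s _
        show hb m (xr (3 * m + 1) (w2 m (j + l0) v) s) v' j = !(hb m s v' j)
        rw [hb_xr _ _ _ (by omega), hw_w2 _ _ (by omega), xorN_single hl0]
        · simp
        · simp only [decide_true, Bool.true_and]
          exact hd0
        · intro l _ hl
          simp [hl]
    · intro s hs
      rw [hmem] at hs ⊢
      refine ⟨xr_length _ _ _, fun i hi => ?_, fun i hi => ?_⟩
      · rw [hb_xr _ _ _ (by omega), hs.2.1 i hi, hw_w1 _ (by omega)]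
        have : ¬ i = j := by omega
        simp [this]
      · rw [hb_xr _ _ _ (by omega), hs.2.2 i hi, hw_w1 _ (by omega)]
        have : ¬ i = j := by omega
        simp [this]
    · intro s hs
      rw [hmem] at hs
      exact xr_xr _ hs.1
    · intro s _
      show hb m (xr (3 * m + 1) (w1 m j) s) v j = !(hb m s v j)
      rw [hb_xr _ _ _ (by omega), hw_w1 _ (by omega)]
      simp

end Pool.Agent.Lib.Pf91712s
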